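import Pool.Agent.J6H70.AD.Avg4

/-!
# Averaging to arbitrary order, part 5: the formal solution is real
-/

set_option autoImplicit false

open Set Filter Topology
open scoped ContDiff

noncomputable section

namespace Pool.Agent.J6H70.AD

open Pool.Agent.N980.TL

variable {n N : ℕ} {f g : RR n}

/-- the complex conjugate of a mode -/
def cjM : Multiplicative (Md n) →* RR n where
  toFun γ := AddMonoidAlgebra.single (-(Multiplicative.toAdd γ)) 1
  map_one' := by
    rw [toAdd_one, neg_zero]; rfl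
  map_mul' γ δ := by
    rw [toAdd_mul, AddMonoidAlgebra.single_mul_single, mul_one, neg_add]

/-- the complex conjugate of a coefficient -/
def cjC : Fc n →+* RR n :=
  (AddMonoidAlgebra.singleZeroRingHom).comp (starRingEnd (Fc n))

/-- complex conjugation -/
def cj : RR n →+* RR n := AddMonoidAlgebra.liftNCRingHom cjC cjM (fun _ _ => Commute.all _ _)

theorem cj_single (γ : Md n) (c : Fc n) :
    cj (AddMonoidAlgebra.single γ c) = AddMonoidAlgebra.single (-γ) (starRingEnd (Fc n) c) := by
  unfold cj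
  have h : AddMonoidAlgebra.liftNCRingHom (cjC (n := n)) cjM (fun _ _ => Commute.all _ _) (AddMonoidAlgebra.single γ c) =
      cjC c * cjM (Multiplicative.ofAdd γ) := AddMonoidAlgebra.liftNC_single _ _ _ _
  rw [h]
  show AddMonoidAlgebra.single 0 (starRingEnd (Fc n) c) * AddMonoidAlgebra.single (-γ) 1 = _
  rw [AddMonoidAlgebra.single_mul_single, zero_add, mul_one]

theorem cj_coeff (f : RR n) (γ : Md n) : (cj f).coeff γ = starRingEnd (Fc n) (f.coeff (-γ)) := by
  classical
  induction f using AddMonoidAlgebra.induction_linear with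
  | zero =>
    rw [map_zero]
    show (0 : Fc n) = starRingEnd (Fc n) 0
    rw [map_zero]
  | add f1 f2 h1 h2 =>
    rw [map_add, AddMonoidAlgebra.coeff_add, Finsupp.add_apply, h1, h2, AddMonoidAlgebra.coeff_add,
      Finsupp.add_apply, map_add]
  | single δ c =>
    rw [cj_single, AddMonoidAlgebra.coeff_single, AddMonoidAlgebra.coeff_single, Finsupp.single_apply,
      Finsupp.single_apply]
    by_cases h : -δ = γ
    · rw [if_pos h, if_pos (by rw [← h, neg_neg])]
    · rw [if_neg h, if_neg (by intro h2; exact h (by rw [h2, neg_neg])), map_zero]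

theorem herm_iff (f : RR n) : Herm f ↔ cj f = f := by
  constructor
  · intro h
    ext γ : 2
    rw [cj_coeff]
    funext v
    have := h γ v
    show (starRingEnd ℂ) (f.coeff (-γ) v) = f.coeff γ v
    rw [this, Complex.conj_conj]
  · intro h γ v
    have h1 : (cj f).coeff (-γ) = f.coeff (-γ) := by rw [h]
    rw [cj_coeff, neg_neg] at h1
    rw [← h1]
    rfl

theorem cj_smul (c : ℂ) (f : RR n) : cj (c • f) = (starRingEnd ℂ c) • cj f := by
  ext γ : 2
  rw [cj_coeff, AddMonoidAlgebra.coeff_smul, AddMonoidAlgebra.coeff_smul, Finsupp.smul_apply, Finsupp.smul_apply,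
    cj_coeff]
  funext v
  show (starRingEnd ℂ) (c * f.coeff (-γ) v) = (starRingEnd ℂ) c * (starRingEnd ℂ) (f.coeff (-γ) v)
  rw [map_mul]

theorem cj_ex (J : ℕ) (z : RR n) : cj (ex J z) = ex J (cj z) := by
  unfold ex
  rw [map_sum]
  refine Finset.sum_congr rfl fun j _ => ?_
  rw [cj_smul, map_pow]
  congr 1
  rw [map_inv₀, Complex.conj_natCast]

theorem om_neg (γ : Md n) (v : Fin n → ℝ) : om (-γ) v = -om γ v := by
  simp only [om]
  rw [← mul_neg, ← Complex.ofReal_neg]
  congr 2
  have e1 : ∀ i, (-γ).1 i = -γ.1 i := fun i => rfl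
  have e2 : (-γ).2 = -γ.2 := rfl
  simp only [e1, e2]
  push_cast
  simp only [neg_mul, Finset.sum_neg_distrib]
  ring

theorem om_conj (γ : Md n) (v : Fin n → ℝ) : (starRingEnd ℂ) (om γ v) = -om γ v := by
  simp only [om]
  rw [map_mul, map_mul, map_mul, Complex.conj_I, Complex.conj_ofReal, Complex.conj_ofReal, Complex.conj_ofNat]
  ring

theorem ta_neg (γ : Md n) (v : Fin n → ℝ) : ta (-γ) v = (starRingEnd ℂ) (ta γ v) := by
  unfold ta
  by_cases h : γ = 0
  · rw [if_pos h, if_pos (by rw [h, neg_zero]), map_zero]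
  · rw [if_neg h, if_neg (neg_ne_zero.2 h), om_neg, map_inv₀, map_mul, om_conj]

theorem cj_tt (f : RR n) : cj (TT f) = TT (cj f) := by
  ext γ : 2
  rw [cj_coeff]
  show starRingEnd (Fc n) (ta (-γ) * f.coeff (-γ)) = ta γ * (cj f).coeff γ
  rw [cj_coeff, map_mul]
  congr 1
  funext v
  show (starRingEnd ℂ) (ta (-γ) v) = ta γ v
  rw [ta_neg, Complex.conj_conj]

variable (D : Trig n N)

/-- the opposite mode -/
def op (ν : Fin N × Bool) : Fin N × Bool := (ν.1, !ν.2)

theorem kk_op (ν : Fin N × Bool) : kk D (op ν) = -kk D ν := by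
  rcases ν with ⟨μ, b⟩
  cases b <;> simp [kk, op]

theorem mm_op (ν : Fin N × Bool) : mm D (op ν) = -mm D ν := by
  rcases ν with ⟨μ, b⟩
  cases b <;> simp [mm, op]

theorem cf_op (ν : Fin N × Bool) : cf D (op ν) = (starRingEnd ℂ) (cf D ν) := by
  rcases ν with ⟨μ, b⟩
  unfold cf op
  rw [map_mul, Complex.conj_ofReal, ← Complex.exp_conj, map_mul, Complex.conj_ofReal, Complex.conj_I]
  cases b
  · simp
  · simp

theorem cj_zt {X : Fin n → RR n} (hX : ∀ i, cj (X i) = X i) (ν : Fin N × Bool) :
    cj (zt D ν X) = zt D (op ν) X := by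
  unfold zt
  rw [map_sum]
  refine Finset.sum_congr rfl fun j _ => ?_
  rw [cj_smul, hX]
  congr 1
  have e : kk D (op ν) j = -kk D ν j := by rw [kk_op]; rfl
  rw [e, map_mul, map_mul, map_mul, Complex.conj_I, Complex.conj_ofReal, Complex.conj_ofNat, map_intCast]
  push_cast
  ring

theorem cj_gg {X : Fin n → RR n} (hX : ∀ i, cj (X i) = X i) (J : ℕ) (a : Fin n) :
    cj (GG D J X a) = GG D J X a := by
  unfold GG
  rw [map_sum]
  have e1 : ∀ ν, cj (AddMonoidAlgebra.single (kk D ν, mm D ν)
      (fun _ => cf D ν * (2 * Real.pi * Complex.I * (kk D ν a : ℂ))) * ex J (zt D ν X)) =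
      AddMonoidAlgebra.single (kk D (op ν), mm D (op ν))
      (fun _ => cf D (op ν) * (2 * Real.pi * Complex.I * (kk D (op ν) a : ℂ))) * ex J (zt D (op ν) X) := by
    intro ν
    rw [map_mul, cj_single, cj_ex, cj_zt D hX]
    congr 2
    · rw [kk_op, mm_op]; rfl
    · funext v
      show (starRingEnd ℂ) (cf D ν * (2 * Real.pi * Complex.I * (kk D ν a : ℂ))) = _
      have e : kk D (op ν) a = -kk D ν a := by rw [kk_op]; rfl
      rw [e, cf_op, map_mul, map_mul, map_mul, map_mul, Complex.conj_I, Complex.conj_ofReal, Complex.conj_ofNat,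
        map_intCast]
      push_cast
      ring
  rw [Finset.sum_congr rfl fun ν _ => e1 ν]
  refine Finset.sum_bij' (fun ν _ => op ν) (fun ν _ => op ν) (fun _ _ => Finset.mem_univ _)
    (fun _ _ => Finset.mem_univ _) (fun ν _ => ?_) (fun ν _ => ?_) (fun ν _ => rfl)
  · simp [op]
  · simp [op]

theorem XX_real (K i : ℕ) (a : Fin n) : cj (XX D K i a) = XX D K i a := by
  induction i generalizing a with
  | zero => show cj (0 : RR n) = 0; rw [map_zero]
  | succ i ih =>
    show cj (TT (GG D K (XX D K i) a)) = TT (GG D K (XX D K i) a)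
    rw [cj_tt, cj_gg D ih]

theorem alg_all : S_ALG := by
  intro n N D hD K
  exact ⟨XX D K (K + 1), (XX_all D hD K K).2.1, fun i => (herm_iff _).2 (XX_real D K (K + 1) i), alg_ord D hD K⟩

end Pool.Agent.J6H70.AD
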