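import Pool.Agent.J6H59.AD.Fin
import Pool.Agent.N980.TL.BL4
import Pool.Agent.N980.TL.EX4
import Pool.Agent.N980.TL.GR4

set_option autoImplicit false

/-!
The `C²` theorems in all dimensions `n = r + 2 ≥ 2` (formerly hand-ins `DenseEscapingAllDimensions` and
`GenericGrowthAllDimensions` of MP_6acca1_an; they are now the case `k = 2` of helper35's
`DenseEscapingCk` and `GenericGrowthCk`). Team: helpers 70, 33, 27, 75, 59.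
-/

open Filter Topology Set
open scoped ContDiff

namespace Pool.Agent.J6H70.AD.AllDim

open Pool.Agent.N980.TL Pool.Agent.J6H59.AD

theorem dense_escaping (r : ℕ) (U f₀ : (Fin (r + 2) → ℝ) → ℝ → ℝ) (hU : Pot U) (hf₀ : Pot f₀)
    (ε : ℝ) (hε : 0 < ε) :
    ∃ f : (Fin (r + 2) → ℝ) → ℝ → ℝ, Pot f ∧ Close ε f₀ f ∧
      ∀ L : (Fin (r + 2) → ℝ) → (Fin (r + 2) → ℝ) → ℝ → ℝ, MechanicalNearInfinity U L →
        ∃ γ : ℝ → Fin (r + 2) → ℝ, (∃ c > 0, ∀ t, 0 ≤ t → c * t ^ (1 / 25 : ℝ) ≤ ‖deriv γ t‖) ∧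
          ∀ t, 0 < t → EulerLagrange (fun x v t => L x v t + f x t) γ t :=
  dense6 main5_all r U f₀ hU hf₀ ε hε

theorem generic_growth (r : ℕ) (U : (Fin (r + 2) → ℝ) → ℝ → ℝ) (hU : Pot U) (φ : ℝ → ℝ) :
    ∃ O : ℕ → Set ((Fin (r + 2) → ℝ) → ℝ → ℝ), (∀ m, OpenDense (O m)) ∧
      ∀ f, (∀ m, f ∈ O m) →
        ∀ L : (Fin (r + 2) → ℝ) → (Fin (r + 2) → ℝ) → ℝ → ℝ, MechanicalNearInfinity U L →
        ∀ K : ℝ, ∃ (γ : ℝ → Fin (r + 2) → ℝ) (t0 t1 : ℝ), t0 < t1 ∧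
        (∀ t ∈ Icc t0 t1, EulerLagrange (fun x v t => L x v t + f x t) γ t) ∧
        (∀ t ∈ Icc t0 t1, K ≤ ‖deriv γ t‖) ∧ φ ‖deriv γ t0‖ < ‖deriv γ t1‖ :=
  growth6 main5_all bl_all ex_all gr_all r U hU φ

end Pool.Agent.J6H70.AD.AllDim
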