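import Pool.Agent.J6H70.AD.Stm5

/-!
# Averaging to arbitrary order, part 1: coefficients of size `V^(-p)`, formal trigonometric polynomials
-/

set_option autoImplicit false

open Set Filter Topology
open scoped ContDiff

noncomputable section

namespace Pool.Agent.J6H70.AD

open Pool.Agent.N980.TL

theorem NRS.mono {n : ℕ} {S S' : ℕ} (h : S ≤ S') {c1 C1 V : ℝ} {v : Fin n → ℝ} (hv : NRS S' c1 C1 V v) :
    NRS S c1 C1 V v := by
  refine ⟨fun k m hk h1 h2 => hv.1 k m hk (fun i => (h1 i).trans ?_) (h2.trans ?_), hv.2⟩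
  · exact_mod_cast h
  · exact_mod_cast h

/-- modes -/
abbrev Md (n : ℕ) : Type := (Fin n → ℤ) × ℤ

/-- coefficients, functions of the velocity -/
abbrev Fc (n : ℕ) : Type := (Fin n → ℝ) → ℂ

/-- formal trigonometric polynomials -/
abbrev RR (n : ℕ) : Type := AddMonoidAlgebra (Fc n) (Md n)

/-- coefficients of size `V^(-p)` -/
def Oc {n : ℕ} (p : ℕ) (a : Fc n) : Prop :=
  ∃ S : ℕ, ∀ c1 C1 : ℝ, 0 < c1 → ∃ C : ℝ, 0 ≤ C ∧ ∀ (V : ℝ) (v v' : Fin n → ℝ), 1 ≤ V →
    NRS S c1 C1 V v → NRS S c1 C1 V v' →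
      ‖a v‖ ≤ C / V ^ p ∧ ‖a v - a v'‖ ≤ C / V ^ p * ‖v - v'‖

variable {n : ℕ} {p q : ℕ} {a b : Fc n}

theorem Oc.zero (p : ℕ) : Oc p (0 : Fc n) := by
  refine ⟨0, fun c1 C1 _ => ⟨0, le_rfl, fun V v v' hV _ _ => ?_⟩⟩
  simp

theorem Oc.const (c : ℂ) : Oc 0 (fun _ : Fin n → ℝ => c) := by
  refine ⟨0, fun c1 C1 _ => ⟨‖c‖, norm_nonneg _, fun V v v' hV _ _ => ?_⟩⟩
  constructor
  · simp
  · simp only [sub_self, norm_zero, pow_zero, div_one]
    positivity

theorem Oc.add (ha : Oc p a) (hb : Oc p b) : Oc p (a + b) := by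
  obtain ⟨S, hS⟩ := ha
  obtain ⟨S', hS'⟩ := hb
  refine ⟨max S S', fun c1 C1 hc => ?_⟩
  obtain ⟨C, hC, h⟩ := hS c1 C1 hc
  obtain ⟨C', hC', h'⟩ := hS' c1 C1 hc
  refine ⟨C + C', by positivity, fun V v v' hV h1 h2 => ?_⟩
  obtain ⟨x1, x2⟩ := h V v v' hV (h1.mono (le_max_left _ _)) (h2.mono (le_max_left _ _))
  obtain ⟨y1, y2⟩ := h' V v v' hV (h1.mono (le_max_right _ _)) (h2.mono (le_max_right _ _))
  constructor
  · calc ‖(a + b) v‖ ≤ ‖a v‖ + ‖b v‖ := norm_add_le _ _
      _ ≤ _ := by rw [add_div]; linarith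
  · have e : (a + b) v - (a + b) v' = (a v - a v') + (b v - b v') := by
      simp only [Pi.add_apply]; ring
    rw [e, add_div, add_mul]
    exact (norm_add_le _ _).trans (add_le_add x2 y2)

theorem Oc.mono (h : q ≤ p) (ha : Oc p a) : Oc q a := by
  obtain ⟨S, hS⟩ := ha
  refine ⟨S, fun c1 C1 hc => ?_⟩
  obtain ⟨C, hC, hh⟩ := hS c1 C1 hc
  refine ⟨C, hC, fun V v v' hV h1 h2 => ?_⟩
  obtain ⟨x1, x2⟩ := hh V v v' hV h1 h2
  have hle : C / V ^ p ≤ C / V ^ q :=
    div_le_div_of_nonneg_left hC (by positivity) (pow_le_pow_right₀ hV h)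
  exact ⟨x1.trans hle, x2.trans (mul_le_mul_of_nonneg_right hle (norm_nonneg _))⟩

theorem Oc.mul (ha : Oc p a) (hb : Oc q b) : Oc (p + q) (a * b) := by
  obtain ⟨S, hS⟩ := ha
  obtain ⟨S', hS'⟩ := hb
  refine ⟨max S S', fun c1 C1 hc => ?_⟩
  obtain ⟨C, hC, h⟩ := hS c1 C1 hc
  obtain ⟨C', hC', h'⟩ := hS' c1 C1 hc
  refine ⟨2 * (C * C'), by positivity, fun V v v' hV h1 h2 => ?_⟩
  obtain ⟨x1, x2⟩ := h V v v' hV (h1.mono (le_max_left _ _)) (h2.mono (le_max_left _ _))
  obtain ⟨y1, y2⟩ := h' V v v' hV (h1.mono (le_max_right _ _)) (h2.mono (le_max_right _ _))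
  obtain ⟨z1, -⟩ := h' V v' v hV (h2.mono (le_max_right _ _)) (h1.mono (le_max_right _ _))
  have hVp : (0 : ℝ) < V ^ p := by positivity
  have hVq : (0 : ℝ) < V ^ q := by positivity
  have e0 : C / V ^ p * (C' / V ^ q) = C * C' / V ^ (p + q) := by
    rw [pow_add]; field_simp
  have hnn : 0 ≤ C / V ^ p := by positivity
  have hnn' : 0 ≤ C' / V ^ q := by positivity
  constructor
  · calc ‖(a * b) v‖ = ‖a v‖ * ‖b v‖ := norm_mul _ _
      _ ≤ C / V ^ p * (C' / V ^ q) := mul_le_mul x1 y1 (norm_nonneg _) hnn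
      _ = C * C' / V ^ (p + q) := e0
      _ ≤ 2 * (C * C') / V ^ (p + q) := by
        apply div_le_div_of_nonneg_right _ (by positivity)
        have : 0 ≤ C * C' := by positivity
        linarith
  · have e : (a * b) v - (a * b) v' = a v * (b v - b v') + (a v - a v') * b v' := by
      simp only [Pi.mul_apply]; ring
    rw [e]
    refine (norm_add_le _ _).trans ?_
    rw [norm_mul, norm_mul]
    have t1 : ‖a v‖ * ‖b v - b v'‖ ≤ C / V ^ p * (C' / V ^ q * ‖v - v'‖) :=
      mul_le_mul x1 y2 (norm_nonneg _) hnn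
    have t2 : ‖a v - a v'‖ * ‖b v'‖ ≤ (C / V ^ p * ‖v - v'‖) * (C' / V ^ q) :=
      mul_le_mul x2 z1 (norm_nonneg _) (mul_nonneg hnn (norm_nonneg _))
    have e2 : 2 * (C * C') / V ^ (p + q) * ‖v - v'‖ =
        C / V ^ p * (C' / V ^ q * ‖v - v'‖) + (C / V ^ p * ‖v - v'‖) * (C' / V ^ q) := by
      have : 2 * (C * C') / V ^ (p + q) = 2 * (C * C' / V ^ (p + q)) := by ring
      rw [this, ← e0]; ring
    rw [e2]
    exact add_le_add t1 t2

theorem Oc.cmul (c : ℂ) (ha : Oc p a) : Oc p (c • a) := by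
  have h := (Oc.const (n := n) c).mul ha
  rw [zero_add] at h
  exact h

theorem Oc.neg (ha : Oc p a) : Oc p (-a) := by
  have h := ha.cmul (-1)
  simpa using h

theorem Oc.sub (ha : Oc p a) (hb : Oc p b) : Oc p (a - b) := by
  rw [sub_eq_add_neg]
  exact ha.add hb.neg

theorem Oc.sum {ι : Type*} (s : Finset ι) {f : ι → Fc n} (h : ∀ i ∈ s, Oc p (f i)) :
    Oc p (∑ i ∈ s, f i) := by
  classical
  induction s using Finset.induction_on with
  | empty => rw [Finset.sum_empty]; exact Oc.zero p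
  | insert i s hi ih =>
    rw [Finset.sum_insert hi]
    exact (h i (Finset.mem_insert_self _ _)).add (ih fun j hj => h j (Finset.mem_insert_of_mem hj))

/-- formal trigonometric polynomials of size `V^(-p)` -/
def Ord (p : ℕ) (f : RR n) : Prop := ∀ γ, Oc p (f.coeff γ)

variable {f g : RR n}

theorem Ord.zero (p : ℕ) : Ord p (0 : RR n) := fun _ => Oc.zero p

theorem Ord.add (hf : Ord p f) (hg : Ord p g) : Ord p (f + g) := fun γ => (hf γ).add (hg γ)

theorem Ord.mono (h : q ≤ p) (hf : Ord p f) : Ord q f := fun γ => (hf γ).mono h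

theorem Ord.cmul (c : ℂ) (hf : Ord p f) : Ord p (c • f) := fun γ => (hf γ).cmul c

theorem Ord.neg (hf : Ord p f) : Ord p (-f) := by
  have h := hf.cmul (-1)
  rwa [neg_one_smul] at h

theorem Ord.sub (hf : Ord p f) (hg : Ord p g) : Ord p (f - g) := by
  rw [sub_eq_add_neg]
  exact hf.add hg.neg

theorem Ord.sum {ι : Type*} (s : Finset ι) {f : ι → RR n} (h : ∀ i ∈ s, Ord p (f i)) :
    Ord p (∑ i ∈ s, f i) := by
  classical
  induction s using Finset.induction_on with
  | empty => rw [Finset.sum_empty]; exact Ord.zero p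
  | insert i s hi ih =>
    rw [Finset.sum_insert hi]
    exact (h i (Finset.mem_insert_self _ _)).add (ih fun j hj => h j (Finset.mem_insert_of_mem hj))

theorem Ord.single {γ : Md n} (ha : Oc p a) : Ord p (AddMonoidAlgebra.single γ a) := by
  classical
  intro δ
  rw [AddMonoidAlgebra.coeff_single, Finsupp.single_apply]
  split_ifs
  · exact ha
  · exact Oc.zero p

theorem Ord.one : Ord 0 (1 : RR n) := by
  rw [AddMonoidAlgebra.one_def]
  exact Ord.single (Oc.const 1)

theorem Ord.mul (hf : Ord p f) (hg : Ord q g) : Ord (p + q) (f * g) := by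
  classical
  intro γ
  rw [AddMonoidAlgebra.coeff_mul]
  unfold Finsupp.sum
  refine Oc.sum _ fun i _ => Oc.sum _ fun j _ => ?_
  beta_reduce
  split_ifs
  · exact (hf i).mul (hg j)
  · exact Oc.zero _

theorem Ord.pow (hf : Ord p f) (j : ℕ) : Ord (p * j) (f ^ j) := by
  induction j with
  | zero => rw [pow_zero, Nat.mul_zero]; exact Ord.one
  | succ j ih =>
    rw [pow_succ, Nat.mul_succ]
    exact ih.mul hf

theorem Ord.pow0 (hf : Ord 0 f) (j : ℕ) : Ord 0 (f ^ j) := by
  have := hf.pow j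
  rwa [Nat.zero_mul] at this

theorem Ord.mul_left (hf : Ord 0 f) (hg : Ord q g) : Ord q (f * g) := by
  have := hf.mul hg
  rwa [zero_add] at this

theorem Ord.mul_right (hf : Ord p f) (hg : Ord 0 g) : Ord p (f * g) := by
  have := hf.mul hg
  rwa [add_zero] at this

/-- diagonal operators -/
def dg (φ : Md n → Fc n) (f : RR n) : RR n :=
  AddMonoidAlgebra.ofCoeff (Finsupp.onFinset f.coeff.support (fun γ => φ γ * f.coeff γ) (by
    intro γ hγ
    rw [Finsupp.mem_support_iff]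
    intro h0
    exact hγ (by rw [h0, mul_zero])))

theorem dg_coeff (φ : Md n → Fc n) (f : RR n) (γ : Md n) : (dg φ f).coeff γ = φ γ * f.coeff γ := rfl

theorem dg_add (φ : Md n → Fc n) (f g : RR n) : dg φ (f + g) = dg φ f + dg φ g := by
  ext γ : 2
  rw [AddMonoidAlgebra.coeff_add, Finsupp.add_apply, dg_coeff, dg_coeff, dg_coeff,
    AddMonoidAlgebra.coeff_add, Finsupp.add_apply, mul_add]

theorem dg_smul (φ : Md n → Fc n) (c : ℂ) (f : RR n) : dg φ (c • f) = c • dg φ f := by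
  ext γ : 2
  rw [AddMonoidAlgebra.coeff_smul, Finsupp.smul_apply, dg_coeff, dg_coeff,
    AddMonoidAlgebra.coeff_smul, Finsupp.smul_apply, mul_smul_comm]

/-- diagonal operators as linear maps -/
def dgL (φ : Md n → Fc n) : RR n →ₗ[ℂ] RR n where
  toFun := dg φ
  map_add' := dg_add φ
  map_smul' := dg_smul φ

theorem dg_sub (φ : Md n → Fc n) (f g : RR n) : dg φ (f - g) = dg φ f - dg φ g :=
  map_sub (dgL φ) f g

theorem dg_zero (φ : Md n → Fc n) : dg φ (0 : RR n) = 0 := map_zero (dgL φ)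

theorem dg_single (φ : Md n → Fc n) (γ : Md n) (a : Fc n) :
    dg φ (AddMonoidAlgebra.single γ a) = AddMonoidAlgebra.single γ (φ γ * a) := by
  classical
  ext δ : 2
  rw [dg_coeff, AddMonoidAlgebra.coeff_single, AddMonoidAlgebra.coeff_single, Finsupp.single_apply,
    Finsupp.single_apply]
  split_ifs with h
  · rw [h]
  · rw [mul_zero]

/-- diagonal derivations -/
def dgD (φ : Md n → Fc n) (hφ : ∀ γ δ, φ (γ + δ) = φ γ + φ δ) : Derivation ℂ (RR n) (RR n) :=
  Derivation.mk' (dgL φ) (by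
    intro f g
    show dg φ (f * g) = f • dg φ g + g • dg φ f
    rw [smul_eq_mul, smul_eq_mul]
    induction f using AddMonoidAlgebra.induction_linear with
    | zero => rw [zero_mul, dg_zero, zero_mul, mul_zero, add_zero]
    | add f1 f2 h1 h2 => rw [add_mul, dg_add, h1, h2, dg_add]; ring
    | single γ a =>
      induction g using AddMonoidAlgebra.induction_linear with
      | zero => rw [mul_zero, dg_zero, zero_mul, mul_zero, add_zero]
      | add f1 f2 h1 h2 => rw [mul_add, dg_add, h1, h2, dg_add]; ring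
      | single δ b =>
        rw [AddMonoidAlgebra.single_mul_single, dg_single, dg_single, dg_single,
          AddMonoidAlgebra.single_mul_single, AddMonoidAlgebra.single_mul_single, add_comm δ γ,
          ← AddMonoidAlgebra.single_add, hφ]
        congr 1
        ring)

theorem dgD_apply (φ : Md n → Fc n) (hφ : ∀ γ δ, φ (γ + δ) = φ γ + φ δ) (f : RR n) :
    dgD φ hφ f = dg φ f := rfl

end Pool.Agent.J6H70.AD
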