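import Pool.Agent.J6H70.AD.AvgDef

/-!
# Averaging to arbitrary order, part 2: the small divisors, slow and fast parts
-/

set_option autoImplicit false

open Set Filter Topology
open scoped ContDiff

noncomputable section

namespace Pool.Agent.J6H70.AD

open Pool.Agent.N980.TL

variable {n N : ℕ} {p q : ℕ}

open Classical in
/-- the inverse of the second derivative along the lines -/
def ta (γ : Md n) : Fc n := fun v => if γ = 0 then 0 else (om γ v * om γ v)⁻¹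

/-- the frequency -/
def xv (γ : Md n) (v : Fin n → ℝ) : ℝ := (∑ i, (γ.1 i : ℝ) * v i) + γ.2

theorem om_eq (γ : Md n) (v : Fin n → ℝ) : om γ v = 2 * Real.pi * Complex.I * (xv γ v : ℂ) := rfl

theorem om_sq (γ : Md n) (v : Fin n → ℝ) : om γ v * om γ v = ((-(4 * Real.pi ^ 2 * xv γ v ^ 2) : ℝ) : ℂ) := by
  rw [om_eq]
  push_cast
  ring_nf
  rw [Complex.I_sq]
  ring

theorem xv_sub (γ : Md n) (v v' : Fin n → ℝ) : |xv γ v - xv γ v'| ≤ (∑ i, |(γ.1 i : ℝ)|) * ‖v - v'‖ := by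
  have e : xv γ v - xv γ v' = ∑ i, (γ.1 i : ℝ) * (v i - v' i) := by
    unfold xv
    rw [add_sub_add_right_eq_sub, ← Finset.sum_sub_distrib]
    exact Finset.sum_congr rfl fun i _ => by ring
  rw [e, Finset.sum_mul]
  refine (Finset.abs_sum_le_sum_abs _ _).trans (Finset.sum_le_sum fun i _ => ?_)
  rw [abs_mul]
  refine mul_le_mul_of_nonneg_left ?_ (abs_nonneg _)
  have := norm_le_pi_norm (v - v') i
  rwa [Real.norm_eq_abs] at this

/-- the order of a mode -/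
def sz (γ : Md n) : ℕ := (∑ i, (γ.1 i).natAbs) + γ.2.natAbs

theorem xv_ge {γ : Md n} (hγ : γ.1 ≠ 0) {c1 C1 V : ℝ} {v : Fin n → ℝ} (h : NRS (sz γ) c1 C1 V v) :
    c1 * V ≤ |xv γ v| := by
  refine h.1 γ.1 γ.2 hγ (fun i => ?_) ?_
  · have h1 : (γ.1 i).natAbs ≤ ∑ i, (γ.1 i).natAbs :=
      Finset.single_le_sum (f := fun i => (γ.1 i).natAbs) (fun _ _ => Nat.zero_le _) (Finset.mem_univ i)
    have h2 : (γ.1 i).natAbs ≤ sz γ := h1.trans (Nat.le_add_right _ _)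
    rw [Int.abs_eq_natAbs]
    exact_mod_cast h2
  · have h2 : γ.2.natAbs ≤ sz γ := Nat.le_add_left _ _
    rw [Int.abs_eq_natAbs]
    exact_mod_cast h2

theorem ta_norm {γ : Md n} (hγ : γ.1 ≠ 0) (v : Fin n → ℝ) :
    ta γ v = ((-(4 * Real.pi ^ 2 * xv γ v ^ 2)⁻¹ : ℝ) : ℂ) := by
  have h0 : γ ≠ 0 := fun h => hγ (by rw [h]; rfl)
  unfold ta
  rw [if_neg h0, om_sq, ← Complex.ofReal_inv, inv_neg]

theorem Oc.ta_fast {γ : Md n} (hγ : γ.1 ≠ 0) : Oc 2 (ta γ) := by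
  refine ⟨sz γ, fun c1 C1 hc => ?_⟩
  set κ : ℝ := ∑ i, |(γ.1 i : ℝ)| with hκ
  have hκ0 : 0 ≤ κ := Finset.sum_nonneg fun _ _ => abs_nonneg _
  refine ⟨1 / c1 ^ 2 + 2 * κ / c1 ^ 3, by positivity, fun V v v' hV h1 h2 => ?_⟩
  have hV0 : 0 < V := by linarith
  have x1 := xv_ge hγ h1
  have x2 := xv_ge hγ h2
  have x3 := xv_sub γ v v'
  rw [← hκ] at x3
  set x := xv γ v with hx
  set x' := xv γ v' with hx'
  have hcV : 0 < c1 * V := by positivity
  have hax : 0 < |x| := hcV.trans_le x1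
  have hax' : 0 < |x'| := hcV.trans_le x2
  have hx0 : x ≠ 0 := abs_pos.1 hax
  have hx0' : x' ≠ 0 := abs_pos.1 hax'
  have hpi : 1 ≤ 4 * Real.pi ^ 2 := by
    have := Real.pi_gt_three
    nlinarith
  have hpi0 : 0 < 4 * Real.pi ^ 2 := by linarith
  constructor
  · rw [ta_norm hγ, Complex.norm_real, Real.norm_eq_abs, abs_neg, abs_of_nonneg (by positivity)]
    have h3 : (c1 * V) ^ 2 ≤ 4 * Real.pi ^ 2 * x ^ 2 := by
      have h4 : (c1 * V) ^ 2 ≤ x ^ 2 := by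
        rw [← sq_abs x]
        exact pow_le_pow_left₀ hcV.le x1 2
      nlinarith [sq_nonneg x]
    calc (4 * Real.pi ^ 2 * x ^ 2)⁻¹ ≤ ((c1 * V) ^ 2)⁻¹ := inv_anti₀ (by positivity) h3
      _ = 1 / c1 ^ 2 / V ^ 2 := by rw [mul_pow]; field_simp
      _ ≤ _ := by
        refine div_le_div_of_nonneg_right ?_ (by positivity)
        have : 0 ≤ 2 * κ / c1 ^ 3 := by positivity
        linarith
  · rw [ta_norm hγ, ta_norm hγ, ← hx, ← hx', ← Complex.ofReal_sub, Complex.norm_real, Real.norm_eq_abs]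
    have e : -(4 * Real.pi ^ 2 * x ^ 2)⁻¹ - -(4 * Real.pi ^ 2 * x' ^ 2)⁻¹ =
        (4 * Real.pi ^ 2)⁻¹ * ((x - x') * (x⁻¹ * (x'⁻¹) ^ 2 + (x⁻¹) ^ 2 * x'⁻¹)) := by
      field_simp
      ring
    rw [e, abs_mul, abs_mul, abs_of_nonneg (by positivity : 0 ≤ (4 * Real.pi ^ 2)⁻¹)]
    have b1 : |x⁻¹| ≤ (c1 * V)⁻¹ := by
      rw [abs_inv]; exact inv_anti₀ hcV x1
    have b2 : |x'⁻¹| ≤ (c1 * V)⁻¹ := by
      rw [abs_inv]; exact inv_anti₀ hcV x2
    have b3 : |x⁻¹ * (x'⁻¹) ^ 2 + (x⁻¹) ^ 2 * x'⁻¹| ≤ 2 * ((c1 * V)⁻¹) ^ 3 := by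
      refine (abs_add_le _ _).trans ?_
      rw [abs_mul, abs_mul, abs_pow, abs_pow]
      have t0 : (0 : ℝ) ≤ (c1 * V)⁻¹ := by positivity
      have t1 : |x⁻¹| * |x'⁻¹| ^ 2 ≤ (c1 * V)⁻¹ * ((c1 * V)⁻¹) ^ 2 :=
        mul_le_mul b1 (pow_le_pow_left₀ (abs_nonneg _) b2 2) (by positivity) t0
      have t2 : |x⁻¹| ^ 2 * |x'⁻¹| ≤ ((c1 * V)⁻¹) ^ 2 * (c1 * V)⁻¹ :=
        mul_le_mul (pow_le_pow_left₀ (abs_nonneg _) b1 2) b2 (abs_nonneg _) (by positivity)
      nlinarith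
    have b4 : ((c1 * V)⁻¹) ^ 3 ≤ 1 / c1 ^ 3 / V ^ 2 := by
      rw [inv_pow, mul_pow, mul_inv, ← one_div, ← one_div, one_div_mul_one_div, div_div]
      refine div_le_div_of_nonneg_left zero_le_one (by positivity) ?_
      have : V ^ 2 ≤ V ^ 3 := pow_le_pow_right₀ hV (by norm_num)
      have hc3 : 0 < c1 ^ 3 := by positivity
      nlinarith
    have b5 : (4 * Real.pi ^ 2)⁻¹ ≤ 1 := inv_le_one_of_one_le₀ hpi
    have b6 : |x - x'| * |x⁻¹ * (x'⁻¹) ^ 2 + (x⁻¹) ^ 2 * x'⁻¹| ≤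
        κ * ‖v - v'‖ * (2 * (1 / c1 ^ 3 / V ^ 2)) :=
      mul_le_mul x3 (b3.trans (by linarith)) (abs_nonneg _) (by positivity)
    calc (4 * Real.pi ^ 2)⁻¹ * (|x - x'| * |x⁻¹ * (x'⁻¹) ^ 2 + (x⁻¹) ^ 2 * x'⁻¹|)
        ≤ 1 * (κ * ‖v - v'‖ * (2 * (1 / c1 ^ 3 / V ^ 2))) := mul_le_mul b5 b6 (by positivity) zero_le_one
      _ = 2 * κ / c1 ^ 3 / V ^ 2 * ‖v - v'‖ := by ring
      _ ≤ (1 / c1 ^ 2 + 2 * κ / c1 ^ 3) / V ^ 2 * ‖v - v'‖ := by
        refine mul_le_mul_of_nonneg_right ?_ (norm_nonneg _)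
        refine div_le_div_of_nonneg_right ?_ (by positivity)
        have : 0 ≤ 1 / c1 ^ 2 := by positivity
        linarith

theorem Oc.ta_slow {γ : Md n} (hγ : γ.1 = 0) : Oc 0 (ta γ) := by
  have e : ta γ = fun _ => ta γ 0 := by
    funext v
    have e1 : om γ v = om γ 0 := by
      unfold om
      rw [hγ]
      simp
    unfold ta
    rw [e1]
  rw [e]
  exact Oc.const _

theorem Oc.of_zero {a : Fc n} (S : ℕ) (h : ∀ c1 C1 V : ℝ, 0 < c1 → 1 ≤ V → ∀ v, NRS S c1 C1 V v → a v = 0) (p : ℕ) :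
    Oc p a := by
  refine ⟨S, fun c1 C1 hc => ⟨0, le_rfl, fun V v v' hV h1 h2 => ?_⟩⟩
  rw [h c1 C1 V hc hV v h1, h c1 C1 V hc hV v' h2]
  simp

/-- `om² ta = 1` at nonresonant velocities -/
theorem om_ta {γ : Md n} (hγ : γ ≠ 0) {c1 C1 V : ℝ} (hc : 0 < c1) (hV : 1 ≤ V) {v : Fin n → ℝ}
    (h1 : NRS (sz γ) c1 C1 V v) : om γ v * om γ v * ta γ v = 1 := by
  have hne : om γ v * om γ v ≠ 0 := by
    rw [om_sq, Complex.ofReal_ne_zero, neg_ne_zero]
    have hx : xv γ v ≠ 0 := by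
      by_cases h : γ.1 = 0
      · have h2 : γ.2 ≠ 0 := fun h2 => hγ (Prod.ext h h2)
        unfold xv
        rw [h]
        simpa using h2
      · have := xv_ge h h1
        have hcV : 0 < c1 * V := by positivity
        exact abs_pos.1 (hcV.trans_le this)
    have := Real.pi_pos
    positivity
  unfold ta
  rw [if_neg hγ, mul_inv_cancel₀ hne]

/-- the fast modes are of size `V^(-p)` -/
def OF (p : ℕ) (f : RR n) : Prop := ∀ γ : Md n, γ.1 ≠ 0 → Oc p (f.coeff γ)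

/-- the slow modes are of size `V^(-p)` -/
def OS (p : ℕ) (f : RR n) : Prop := ∀ γ : Md n, γ.1 = 0 → Oc p (f.coeff γ)

variable {f g : RR n}

theorem Ord.of (h1 : OF p f) (h2 : OS p f) : Ord p f := fun γ => by
  by_cases h : γ.1 = 0
  · exact h2 γ h
  · exact h1 γ h

theorem Ord.of' {p1 p2 : ℕ} (h1 : OF p1 f) (h2 : OS p2 f) (a1 : p ≤ p1) (a2 : p ≤ p2) : Ord p f :=
  Ord.of (fun γ h => (h1 γ h).mono a1) (fun γ h => (h2 γ h).mono a2)

theorem OF.add (hf : OF p f) (hg : OF p g) : OF p (f + g) := fun γ h => (hf γ h).add (hg γ h)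

theorem OS.add (hf : OS p f) (hg : OS p g) : OS p (f + g) := fun γ h => (hf γ h).add (hg γ h)

theorem Ord.dg0 {φ : Md n → Fc n} (hφ : ∀ γ, Oc 0 (φ γ)) (hf : Ord p f) : Ord p (dg φ f) := fun γ => by
  have := (hφ γ).mul (hf γ)
  rwa [zero_add] at this

/-- the inverse operator -/
def TT (f : RR n) : RR n := dg ta f

theorem OF.tt (hf : OF p f) : OF (p + 2) (TT f) := fun γ h => by
  have := (Oc.ta_fast h).mul (hf γ h)
  rwa [add_comm 2 p] at this

theorem OS.tt (hf : OS p f) : OS p (TT f) := fun γ h => by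
  have := (Oc.ta_slow h).mul (hf γ h)
  rwa [zero_add] at this

theorem tt_sub (f g : RR n) : TT (f - g) = TT f - TT g := dg_sub _ _ _

/-- the slow part -/
def sl (f : RR n) : RR n := dg (fun γ => if γ.1 = 0 then 1 else 0) f

/-- slow functions -/
def Slow (f : RR n) : Prop := ∀ γ : Md n, γ.1 ≠ 0 → f.coeff γ = 0

theorem Slow.sl (f : RR n) : Slow (sl f) := fun γ h => by
  show (if γ.1 = 0 then 1 else 0) * f.coeff γ = 0
  rw [if_neg h, zero_mul]

theorem sl_sub (f g : RR n) : sl (f - g) = sl f - sl g := dg_sub _ _ _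

theorem Ord.sl (hf : Ord p f) : Ord p (sl f) := by
  refine Ord.dg0 (fun γ => ?_) hf
  split_ifs
  · exact Oc.const 1
  · exact Oc.zero 0

theorem Ord.sub_sl (hf : OF p f) : Ord p (f - AD.sl f) := fun γ => by
  have e : (f - AD.sl f).coeff γ = f.coeff γ - (if γ.1 = 0 then 1 else 0) * f.coeff γ := rfl
  rw [e]
  by_cases h : γ.1 = 0
  · rw [if_pos h, one_mul, sub_self]
    exact Oc.zero p
  · rw [if_neg h, zero_mul, sub_zero]
    exact hf γ h

theorem Slow.zero : Slow (0 : RR n) := fun _ _ => rfl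

theorem Slow.add (hf : Slow f) (hg : Slow g) : Slow (f + g) := fun γ h => by
  rw [AddMonoidAlgebra.coeff_add, Finsupp.add_apply, hf γ h, hg γ h, add_zero]

theorem Slow.cmul (c : ℂ) (hf : Slow f) : Slow (c • f) := fun γ h => by
  rw [AddMonoidAlgebra.coeff_smul, Finsupp.smul_apply, hf γ h, smul_zero]

theorem Slow.neg (hf : Slow f) : Slow (-f) := by
  have h := hf.cmul (-1)
  rwa [neg_one_smul] at h

theorem Slow.sub (hf : Slow f) (hg : Slow g) : Slow (f - g) := by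
  rw [sub_eq_add_neg]
  exact hf.add hg.neg

theorem Slow.one : Slow (1 : RR n) := fun γ h => by
  classical
  rw [AddMonoidAlgebra.one_def, AddMonoidAlgebra.coeff_single, Finsupp.single_apply, if_neg]
  intro h0
  exact h (by rw [← h0]; rfl)

theorem Slow.mul (hf : Slow f) (hg : Slow g) : Slow (f * g) := fun γ h => by
  classical
  rw [AddMonoidAlgebra.coeff_mul]
  unfold Finsupp.sum
  refine Finset.sum_eq_zero fun i _ => Finset.sum_eq_zero fun j _ => ?_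
  beta_reduce
  split_ifs with hij
  · by_cases hi : i.1 = 0
    · by_cases hj : j.1 = 0
      · exfalso
        apply h
        rw [← hij, Prod.fst_add, hi, hj, add_zero]
      · rw [hg j hj, mul_zero]
    · rw [hf i hi, zero_mul]
  · rfl

theorem Slow.pow (hf : Slow f) (j : ℕ) : Slow (f ^ j) := by
  induction j with
  | zero => rw [pow_zero]; exact Slow.one
  | succ j ih => rw [pow_succ]; exact ih.mul hf

theorem Slow.sum {ι : Type*} (s : Finset ι) {f : ι → RR n} (h : ∀ i ∈ s, Slow (f i)) : Slow (∑ i ∈ s, f i) := by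
  classical
  induction s using Finset.induction_on with
  | empty => rw [Finset.sum_empty]; exact Slow.zero
  | insert i s hi ih =>
    rw [Finset.sum_insert hi]
    exact (h i (Finset.mem_insert_self _ _)).add (ih fun j hj => h j (Finset.mem_insert_of_mem hj))

/-- a fast mode times a slow function has no slow modes -/
theorem Slow.fast (hf : Slow f) {κ : Md n} (hκ : κ.1 ≠ 0) (c : Fc n) {γ : Md n} (hγ : γ.1 = 0) :
    (AddMonoidAlgebra.single κ c * f).coeff γ = 0 := by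
  have e : γ = κ + (γ - κ) := by abel
  rw [AddMonoidAlgebra.coeff_single_mul_eq_mul_coeff (γ - κ) (by
    intro m _
    constructor
    · intro h; rw [← h]; abel
    · intro h; rw [h]; abel)]
  rw [hf _ (by
    intro h
    apply hκ
    have : (γ - κ).1 = γ.1 - κ.1 := rfl
    rw [this, hγ, zero_sub, neg_eq_zero] at h
    exact h), mul_zero]

end Pool.Agent.J6H70.AD
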