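import Pool.Agent.J6H70.AD.Avg2

/-!
# Averaging to arbitrary order, part 3: the iteration
-/

set_option autoImplicit false

open Set Filter Topology
open scoped ContDiff

noncomputable section

namespace Pool.Agent.J6H70.AD

open Pool.Agent.N980.TL

variable {n N : ℕ} {p q : ℕ} {f g : RR n}

theorem ord_pow_sub {z z' : RR n} (hz : Ord 0 z) (hz' : Ord 0 z') (hd : Ord p (z' - z)) (j : ℕ) :
    Ord p (z' ^ j - z ^ j) := by
  induction j with
  | zero => rw [pow_zero, pow_zero, sub_self]; exact Ord.zero p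
  | succ j ih =>
    have e : z' ^ (j + 1) - z ^ (j + 1) = z' * (z' ^ j - z ^ j) + (z' - z) * z ^ j := by ring
    rw [e]
    exact (hz'.mul_left ih).add (hd.mul_right (hz.pow0 j))

/-- the main estimate: the difference of powers agrees with the one of the slow parts, up to one more order -/
theorem ord_pow_sub2 {z z' : RR n} (hz : Ord 2 z) (hz' : Ord 2 z') {i : ℕ} (hF : OF (i + 2) (z' - z))
    (hS : OS (i + 1) (z' - z)) (j : ℕ) :
    Ord (i + 2) ((z' ^ j - z ^ j) - ((sl z') ^ j - (sl z) ^ j)) := by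
  have z0 : Ord 0 z := hz.mono (by omega)
  have z0' : Ord 0 z' := hz'.mono (by omega)
  have s0 : Ord 0 (sl z) := z0.sl
  have s0' : Ord 0 (sl z') := z0'.sl
  have hd : Ord (i + 1) (z' - z) := Ord.of' hF hS (by omega) le_rfl
  have hds : Ord (i + 1) (sl z' - sl z) := by rw [← sl_sub]; exact hd.sl
  have hf : Ord (i + 2) ((z' - z) - (sl z' - sl z)) := by
    rw [← sl_sub]
    exact Ord.sub_sl hF
  have h1 : Ord 2 (z' - sl z') := hz'.sub (hz'.sl)
  have h2 : Ord 1 (z - sl z) := (hz.sub (hz.sl)).mono (by omega)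
  induction j with
  | zero =>
    simp only [pow_zero, sub_self]
    exact Ord.zero _
  | succ j ih =>
    have e : (z' ^ (j + 1) - z ^ (j + 1)) - ((sl z') ^ (j + 1) - (sl z) ^ (j + 1)) =
        z' * ((z' ^ j - z ^ j) - ((sl z') ^ j - (sl z) ^ j)) + (z' - sl z') * ((sl z') ^ j - (sl z) ^ j) +
          ((z' - z) - (sl z' - sl z)) * z ^ j + (sl z' - sl z) * (z ^ j - (sl z) ^ j) := by ring
    rw [e]
    have t2 : Ord (i + 2) ((z' - sl z') * ((sl z') ^ j - (sl z) ^ j)) :=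
      (h1.mul (ord_pow_sub s0 s0' hds j)).mono (by omega)
    have t4 : Ord (i + 2) ((sl z' - sl z) * (z ^ j - (sl z) ^ j)) :=
      (hds.mul (ord_pow_sub s0 z0 h2 j)).mono (by omega)
    exact (((z0'.mul_left ih).add t2).add (hf.mul_right (z0.pow0 j))).add t4

theorem Ord.ex {z : RR n} (hz : Ord 0 z) (J : ℕ) : Ord 0 (ex J z) :=
  Ord.sum _ fun j _ => (hz.pow0 j).cmul _

theorem Slow.ex {z : RR n} (hz : Slow z) (J : ℕ) : Slow (AD.ex J z) :=
  Slow.sum _ fun j _ => (hz.pow j).cmul _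

theorem ord_ex_sub {z z' : RR n} (hz : Ord 0 z) (hz' : Ord 0 z') (hd : Ord p (z' - z)) (J : ℕ) :
    Ord p (ex J z' - ex J z) := by
  unfold ex
  rw [← Finset.sum_sub_distrib]
  refine Ord.sum _ fun j _ => ?_
  rw [← smul_sub]
  exact (ord_pow_sub hz hz' hd j).cmul _

theorem ord_ex_sub2 {z z' : RR n} (hz : Ord 2 z) (hz' : Ord 2 z') {i : ℕ} (hF : OF (i + 2) (z' - z))
    (hS : OS (i + 1) (z' - z)) (J : ℕ) :
    Ord (i + 2) ((ex J z' - ex J z) - (ex J (sl z') - ex J (sl z))) := by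
  unfold ex
  rw [← Finset.sum_sub_distrib, ← Finset.sum_sub_distrib, ← Finset.sum_sub_distrib]
  refine Ord.sum _ fun j _ => ?_
  rw [← smul_sub, ← smul_sub, ← smul_sub]
  exact (ord_pow_sub2 hz hz' hF hS j).cmul _

variable (D : Trig n N)

theorem Ord.zt {X : Fin n → RR n} (hX : ∀ i, Ord p (X i)) (ν : Fin N × Bool) : Ord p (zt D ν X) :=
  Ord.sum _ fun j _ => (hX j).cmul _

theorem OF.zt {X : Fin n → RR n} (hX : ∀ i, OF p (X i)) (ν : Fin N × Bool) : OF p (AD.zt D ν X) := by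
  intro γ hγ
  unfold AD.zt
  rw [AddMonoidAlgebra.coeff_sum, Finsupp.finsetSum_apply]
  exact Oc.sum _ fun j _ => (hX j γ hγ).cmul _

theorem OS.zt {X : Fin n → RR n} (hX : ∀ i, OS p (X i)) (ν : Fin N × Bool) : OS p (AD.zt D ν X) := by
  intro γ hγ
  unfold AD.zt
  rw [AddMonoidAlgebra.coeff_sum, Finsupp.finsetSum_apply]
  exact Oc.sum _ fun j _ => (hX j γ hγ).cmul _

theorem zt_sub (X Y : Fin n → RR n) (ν : Fin N × Bool) : zt D ν X - zt D ν Y = zt D ν (fun i => X i - Y i) := by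
  unfold zt
  rw [← Finset.sum_sub_distrib]
  exact Finset.sum_congr rfl fun j _ => by rw [smul_sub]

theorem kk_ne {D : Trig n N} (hD : ∀ μ, D.k μ ≠ 0) (ν : Fin N × Bool) : kk D ν ≠ 0 := by
  unfold kk
  split_ifs
  · exact hD _
  · exact neg_ne_zero.2 (hD _)

theorem Ord.gg {X : Fin n → RR n} (hX : ∀ i, Ord 0 (X i)) (J : ℕ) (i : Fin n) : Ord 0 (GG D J X i) := by
  refine Ord.sum _ fun ν _ => ?_
  exact (Ord.single (Oc.const _)).mul_left ((Ord.zt D hX ν).ex J)

theorem ord_gg_sub {X Y : Fin n → RR n} (hX : ∀ i, Ord 0 (X i)) (hY : ∀ i, Ord 0 (Y i))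
    (hd : ∀ i, Ord p (Y i - X i)) (J : ℕ) (i : Fin n) : Ord p (GG D J Y i - GG D J X i) := by
  unfold GG
  rw [← Finset.sum_sub_distrib]
  refine Ord.sum _ fun ν _ => ?_
  rw [← mul_sub]
  refine (Ord.single (Oc.const _)).mul_left (ord_ex_sub (Ord.zt D hX ν) (Ord.zt D hY ν) ?_ J)
  rw [zt_sub]
  exact Ord.zt D hd ν

/-- the slow modes of the difference of the forces gain one order -/
theorem os_gg_sub (hD : ∀ μ, D.k μ ≠ 0) {X Y : Fin n → RR n} (hX : ∀ i, Ord 2 (X i)) (hY : ∀ i, Ord 2 (Y i))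
    {i : ℕ} (hF : ∀ j, OF (i + 2) (Y j - X j)) (hS : ∀ j, OS (i + 1) (Y j - X j)) (J : ℕ) (a : Fin n) :
    OS (i + 2) (GG D J Y a - GG D J X a) := by
  intro γ hγ
  unfold GG
  rw [← Finset.sum_sub_distrib, AddMonoidAlgebra.coeff_sum, Finsupp.finsetSum_apply]
  refine Oc.sum _ fun ν _ => ?_
  rw [← mul_sub]
  set z := zt D ν X with hz
  set z' := zt D ν Y with hz'
  have e : ex J z' - ex J z = ((ex J z' - ex J z) - (ex J (sl z') - ex J (sl z))) + (ex J (sl z') - ex J (sl z)) := by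
    ring
  rw [e, mul_add, AddMonoidAlgebra.coeff_add, Finsupp.add_apply,
    Slow.fast (((Slow.sl z').ex J).sub ((Slow.sl z).ex J)) (kk_ne hD ν) _ hγ, add_zero]
  have h1 : OF (i + 2) (z' - z) := by
    rw [hz, hz', zt_sub]
    exact OF.zt D hF ν
  have h2 : OS (i + 1) (z' - z) := by
    rw [hz, hz', zt_sub]
    exact OS.zt D hS ν
  exact ((Ord.single (Oc.const _)).mul_left
    (ord_ex_sub2 (Ord.zt D hX ν) (Ord.zt D hY ν) h1 h2 J)) γ

/-- the force of the zero correction has no slow modes -/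
theorem gg_zero_slow (hD : ∀ μ, D.k μ ≠ 0) (J : ℕ) (a : Fin n) {γ : Md n} (hγ : γ.1 = 0) :
    (GG D J (fun _ => 0) a).coeff γ = 0 := by
  unfold GG
  rw [AddMonoidAlgebra.coeff_sum, Finsupp.finsetSum_apply]
  refine Finset.sum_eq_zero fun ν _ => ?_
  refine Slow.fast (Slow.ex ?_ J) (kk_ne hD ν) _ hγ
  have e : zt D ν (fun _ => 0) = 0 := by
    unfold zt
    simp
  rw [e]
  exact Slow.zero

/-- the iteration -/
def XX (K : ℕ) : ℕ → Fin n → RR n
  | 0 => fun _ => 0
  | i + 1 => fun a => TT (GG D K (XX K i) a)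

theorem XX_all (hD : ∀ μ, D.k μ ≠ 0) (K i : ℕ) :
    (∀ a, Ord 2 (XX D K i a)) ∧ (∀ a, Ord 2 (XX D K (i + 1) a)) ∧
      (∀ a, OF (i + 2) (XX D K (i + 1) a - XX D K i a)) ∧
      ∀ a, OS (i + 1) (XX D K (i + 1) a - XX D K i a) := by
  induction i with
  | zero =>
    have h1 : ∀ a, OF 2 (XX D K 1 a) := fun a => by
      have : OF 0 (GG D K (XX D K 0) a) := fun γ _ => Ord.gg D (fun _ => Ord.zero 0) K a γ
      exact this.tt
    have h2 : ∀ (q : ℕ) a, OS q (XX D K 1 a) := fun q a γ hγ => by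
      show Oc q (ta γ * (GG D K (fun _ => 0) a).coeff γ)
      rw [gg_zero_slow D hD K a hγ, mul_zero]
      exact Oc.zero q
    refine ⟨fun a => Ord.zero 2, fun a => Ord.of (h1 a) (h2 2 a), fun a => ?_, fun a => ?_⟩
    · show OF 2 (XX D K 1 a - 0)
      rw [sub_zero]; exact h1 a
    · show OS 1 (XX D K 1 a - 0)
      rw [sub_zero]; exact h2 1 a
  | succ i ih =>
    obtain ⟨a1, a2, a3, a4⟩ := ih
    have e : ∀ a, XX D K (i + 1 + 1) a - XX D K (i + 1) a =
        TT (GG D K (XX D K (i + 1)) a - GG D K (XX D K i) a) := fun a => (tt_sub _ _).symm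
    have h1 : ∀ a, Ord (i + 1) (GG D K (XX D K (i + 1)) a - GG D K (XX D K i) a) := fun a =>
      ord_gg_sub D (fun i => (a1 i).mono (by omega)) (fun i => (a2 i).mono (by omega))
        (fun j => Ord.of' (a3 j) (a4 j) (by omega) le_rfl) K a
    have h2 : ∀ a, OS (i + 2) (GG D K (XX D K (i + 1)) a - GG D K (XX D K i) a) := fun a =>
      os_gg_sub D hD a1 a2 a3 a4 K a
    have h3 : ∀ a, OF (i + 1 + 2) (XX D K (i + 1 + 1) a - XX D K (i + 1) a) := fun a => by
      rw [e]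
      exact OF.tt fun γ _ => h1 a γ
    have h4 : ∀ a, OS (i + 2) (XX D K (i + 1 + 1) a - XX D K (i + 1) a) := fun a => by
      rw [e]
      exact OS.tt (h2 a)
    refine ⟨a2, fun a => ?_, h3, h4⟩
    have e2 : XX D K (i + 1 + 1) a = XX D K (i + 1) a + (XX D K (i + 1 + 1) a - XX D K (i + 1) a) := by ring
    rw [e2]
    exact (a2 a).add (Ord.of' (h3 a) (h4 a) (by omega) (by omega))

/-- the mean mode as a function -/
def mn (f : RR n) : Fc n := f.coeff 0

/-- `LL (TT f) = f` up to the mean mode, at nonresonant velocities -/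
theorem ord_LLTT (p : ℕ) (f : RR n) : Ord p (f - LL (TT f) - AddMonoidAlgebra.single 0 (mn f)) := by
  classical
  intro γ
  have e : (f - LL (TT f) - AddMonoidAlgebra.single 0 (mn f)).coeff γ =
      f.coeff γ - om γ * om γ * (ta γ * f.coeff γ) - if (0 : Md n) = γ then f.coeff 0 else 0 := by
    have e1 : (f - LL (TT f) - AddMonoidAlgebra.single 0 (mn f)).coeff γ =
      f.coeff γ - om γ * om γ * (ta γ * f.coeff γ) - (Finsupp.single (0 : Md n) (mn f)) γ := rfl
    rw [e1, Finsupp.single_apply]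
    rfl
  rw [e]
  by_cases h : γ = 0
  · have e2 : ta γ = 0 := by
      funext v
      unfold ta
      rw [if_pos h]
      rfl
    rw [e2, zero_mul, mul_zero, sub_zero, if_pos h.symm, h, sub_self]
    exact Oc.zero p
  · rw [if_neg (Ne.symm h), sub_zero]
    refine Oc.of_zero (sz γ) (fun c1 C1 V hc hV v hv => ?_) p
    show f.coeff γ v - om γ v * om γ v * (ta γ v * f.coeff γ v) = 0
    rw [← mul_assoc, om_ta h hc hV hv, one_mul, sub_self]

end Pool.Agent.J6H70.AD
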