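import Pool.Agent.J6H70.AD.Avg3

/-!
# Averaging to arbitrary order, part 4: the mean mode of the force
-/

set_option autoImplicit false

open Set Filter Topology
open scoped ContDiff

noncomputable section

namespace Pool.Agent.J6H70.AD

open Pool.Agent.N980.TL

variable {n N : ℕ} {p q : ℕ} {f g : RR n}

/-- the factor of the partial derivative in `θ_a` -/
def pa (a : Fin n) (γ : Md n) : Fc n := fun _ => 2 * Real.pi * Complex.I * (γ.1 a : ℂ)

theorem pa_add (a : Fin n) (γ δ : Md n) : pa a (γ + δ) = pa a γ + pa a δ := by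
  funext v
  show 2 * Real.pi * Complex.I * (((γ + δ).1 a : ℤ) : ℂ) = _
  have e : (γ + δ).1 a = γ.1 a + δ.1 a := rfl
  rw [e]
  simp only [pa, Pi.add_apply]
  push_cast
  ring

theorem om_add (γ δ : Md n) : om (γ + δ) = om γ + om δ := by
  funext v
  simp only [om, Pi.add_apply]
  rw [← mul_add, ← Complex.ofReal_add]
  congr 2
  have e1 : ∀ i, (γ + δ).1 i = γ.1 i + δ.1 i := fun i => rfl
  have e2 : (γ + δ).2 = γ.2 + δ.2 := rfl
  simp only [e1, e2]
  push_cast
  simp only [add_mul, Finset.sum_add_distrib]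
  ring

/-- the partial derivative in `θ_a` -/
def dA (a : Fin n) : Derivation ℂ (RR n) (RR n) := dgD (pa a) (pa_add a)

/-- the derivative along the lines -/
def dV : Derivation ℂ (RR n) (RR n) := dgD om om_add

theorem dA_apply (a : Fin n) (f : RR n) : dA a f = dg (pa a) f := rfl
theorem dV_apply (f : RR n) : dV f = dg om f := rfl

theorem LL_eq (f : RR n) : LL f = dV (dV f) := by
  ext γ : 2
  show om γ * om γ * f.coeff γ = om γ * (om γ * f.coeff γ)
  ring

theorem dV_dA (a : Fin n) (f : RR n) : dV (dA a f) = dA a (dV f) := by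
  ext γ : 2
  show om γ * (pa a γ * f.coeff γ) = pa a γ * (om γ * f.coeff γ)
  ring

theorem mn_dA (a : Fin n) (f : RR n) : mn (dA a f) = 0 := by
  show pa a 0 * f.coeff 0 = 0
  have : pa a (0 : Md n) = 0 := by
    funext v
    simp [pa]
  rw [this, zero_mul]

theorem mn_dV (f : RR n) : mn (dV f) = 0 := by
  show om 0 * f.coeff 0 = 0
  have : om (0 : Md n) = 0 := by
    funext v
    simp [om]
  rw [this, zero_mul]

theorem mn_add (f g : RR n) : mn (f + g) = mn f + mn g := rfl
theorem mn_sub (f g : RR n) : mn (f - g) = mn f - mn g := rfl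
theorem mn_smul (c : ℂ) (f : RR n) : mn (c • f) = c • mn f := rfl
theorem mn_sum {ι : Type*} (s : Finset ι) (f : ι → RR n) : mn (∑ i ∈ s, f i) = ∑ i ∈ s, mn (f i) := by
  unfold mn
  rw [AddMonoidAlgebra.coeff_sum, Finsupp.finsetSum_apply]

theorem Ord.mn (hf : Ord p f) : Oc p (AD.mn f) := hf 0

theorem Ord.dA (hf : Ord p f) (a : Fin n) : Ord p (AD.dA a f) := fun γ => by
  have := (Oc.const (n := n) (2 * Real.pi * Complex.I * (γ.1 a : ℂ))).mul (hf γ)
  rwa [zero_add] at this

theorem mn_LL (a : Fin n) (f : RR n) : mn (LL f * dA a f) = 0 := by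
  have e : LL f * dA a f = dV (dV f * dA a f) - (2⁻¹ : ℂ) • dA a (dV f * dV f) := by
    rw [Derivation.leibniz, Derivation.leibniz, LL_eq, dV_dA]
    simp only [smul_eq_mul]
    have h2 : dV f * dA a (dV f) + dV f * dA a (dV f) = (2 : ℂ) • (dV f * dA a (dV f)) := by
      rw [two_smul]
    rw [h2, smul_smul]
    norm_num
    ring
  rw [e, mn_sub, mn_smul, mn_dV, mn_dA, smul_zero, sub_zero]

theorem dA_ex (a : Fin n) (J : ℕ) (z : RR n) : dA a (ex (J + 1) z) = ex J z * dA a z := by
  unfold ex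
  rw [map_sum, Finset.sum_range_succ']
  have h0 : dA a (((Nat.factorial 0 : ℕ) : ℂ)⁻¹ • z ^ 0) = 0 := by
    rw [Derivation.map_smul, pow_zero, Derivation.map_one_eq_zero, smul_zero]
  rw [h0, add_zero, Finset.sum_mul]
  refine Finset.sum_congr rfl fun j _ => ?_
  rw [Derivation.map_smul, Derivation.leibniz_pow]
  have e : ((j + 1).factorial : ℂ)⁻¹ * (j + 1 : ℕ) = (j.factorial : ℂ)⁻¹ := by
    rw [Nat.factorial_succ]
    have h1 : ((j + 1 : ℕ) : ℂ) ≠ 0 := by exact_mod_cast Nat.succ_ne_zero j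
    have h2 : ((j.factorial : ℕ) : ℂ) ≠ 0 := by exact_mod_cast Nat.factorial_ne_zero j
    push_cast at *
    field_simp
  rw [Nat.add_sub_cancel, ← e, smul_eq_mul, ← Nat.cast_smul_eq_nsmul ℂ, smul_smul, smul_mul_assoc]

variable (D : Trig n N)

/-- the potential, with the truncated exponential series -/
def WW (J : ℕ) (X : Fin n → RR n) : RR n :=
  ∑ ν, AddMonoidAlgebra.single (kk D ν, mm D ν) (fun _ => cf D ν) * ex (J + 1) (zt D ν X)

theorem dA_zt (a : Fin n) (ν : Fin N × Bool) (X : Fin n → RR n) :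
    dA a (zt D ν X) = ∑ b, (2 * Real.pi * Complex.I * (kk D ν b : ℂ)) • dA a (X b) := by
  unfold zt
  rw [map_sum]
  exact Finset.sum_congr rfl fun b _ => Derivation.map_smul _ _ _

theorem dA_WW (a : Fin n) (J : ℕ) (X : Fin n → RR n) :
    dA a (WW D J X) = GG D (J + 1) X a + ∑ b, GG D J X b * dA a (X b) := by
  unfold WW GG
  rw [map_sum]
  have e1 : ∀ ν : Fin N × Bool, dA a (AddMonoidAlgebra.single (kk D ν, mm D ν) (fun _ => cf D ν) * ex (J + 1) (zt D ν X)) =
      AddMonoidAlgebra.single (kk D ν, mm D ν) (fun _ => cf D ν * (2 * Real.pi * Complex.I * (kk D ν a : ℂ))) *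
        ex (J + 1) (zt D ν X) +
      ∑ b, AddMonoidAlgebra.single (kk D ν, mm D ν) (fun _ => cf D ν * (2 * Real.pi * Complex.I * (kk D ν b : ℂ))) *
        ex J (zt D ν X) * dA a (X b) := by
    intro ν
    rw [Derivation.leibniz, dA_ex, dA_zt, smul_eq_mul, smul_eq_mul, dA_apply a (AddMonoidAlgebra.single _ _), dg_single,
      add_comm]
    congr 1
    · rw [mul_comm]
      congr 2
      funext v
      show 2 * Real.pi * Complex.I * ((kk D ν a : ℤ) : ℂ) * cf D ν = _
      ring
    · rw [Finset.mul_sum, Finset.mul_sum]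
      refine Finset.sum_congr rfl fun b _ => ?_
      have e2 : AddMonoidAlgebra.single (kk D ν, mm D ν)
          (fun _ => cf D ν * (2 * Real.pi * Complex.I * (kk D ν b : ℂ))) =
          (2 * Real.pi * Complex.I * (kk D ν b : ℂ)) •
            (AddMonoidAlgebra.single (kk D ν, mm D ν) (fun _ => cf D ν) : RR n) := by
        rw [AddMonoidAlgebra.smul_single]
        congr 1
        funext v
        show _ = (2 * Real.pi * Complex.I * (kk D ν b : ℂ)) * cf D ν
        ring
      rw [e2, smul_mul_assoc, smul_mul_assoc, mul_smul_comm, mul_smul_comm,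
        mul_assoc (AddMonoidAlgebra.single (kk D ν, mm D ν) fun _ => cf D ν)]
  rw [Finset.sum_congr rfl fun ν _ => e1 ν, Finset.sum_add_distrib]
  congr 1
  rw [Finset.sum_comm]
  refine Finset.sum_congr rfl fun b _ => ?_
  rw [Finset.sum_mul]

theorem ord_gg_succ {X : Fin n → RR n} (hX : ∀ i, Ord 1 (X i)) (J : ℕ) (a : Fin n) :
    Ord (J + 1) (GG D (J + 1) X a - GG D J X a) := by
  unfold GG
  rw [← Finset.sum_sub_distrib]
  refine Ord.sum _ fun ν _ => ?_
  rw [← mul_sub]
  have e : ex (J + 1) (zt D ν X) - ex J (zt D ν X) = (((J + 1).factorial : ℂ)⁻¹) • (zt D ν X) ^ (J + 1) := by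
    unfold ex
    rw [Finset.sum_range_succ _ (J + 1), add_sub_cancel_left]
  rw [e]
  have h := (Ord.zt D hX ν).pow (J + 1)
  rw [one_mul] at h
  exact (Ord.single (Oc.const _)).mul_left (h.cmul _)

/-- the mean mode of the force is small -/
theorem oc_mean {X : Fin n → RR n} {J : ℕ} (hX : ∀ i, Ord 1 (X i)) (m : Fin n → Fc n)
    (hE : ∀ b, Ord J (GG D J X b - LL (X b) - AddMonoidAlgebra.single 0 (m b))) (a : Fin n) :
    Oc J (mn (GG D J X a)) := by
  have h1 := congrArg mn (dA_WW D a J X)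
  rw [mn_dA, mn_add, mn_sum] at h1
  have h2 : ∀ b, Oc J (mn (GG D J X b * dA a (X b))) := by
    intro b
    have e : GG D J X b * dA a (X b) = (GG D J X b - LL (X b) - AddMonoidAlgebra.single 0 (m b)) * dA a (X b) +
        LL (X b) * dA a (X b) + AddMonoidAlgebra.single 0 (m b) * dA a (X b) := by ring
    have e2 : mn (AddMonoidAlgebra.single 0 (m b) * dA a (X b)) = 0 := by
      show (AddMonoidAlgebra.single 0 (m b) * dA a (X b)).coeff 0 = 0
      rw [AddMonoidAlgebra.coeff_single_zero_mul]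
      have := mn_dA a (X b)
      unfold mn at this
      rw [this, mul_zero]
    rw [e, mn_add, mn_add, mn_LL, e2, add_zero, add_zero]
    exact ((hE b).mul_right (((hX b).mono (by omega)).dA a)).mn
  have h3 : mn (GG D J X a) = -(mn (GG D (J + 1) X a - GG D J X a)) - ∑ b, mn (GG D J X b * dA a (X b)) := by
    rw [mn_sub]
    have h4 : mn (GG D (J + 1) X a) = -∑ b, mn (GG D J X b * dA a (X b)) := by
      rw [eq_neg_iff_add_eq_zero]
      exact h1.symm
    rw [h4]
    ring
  rw [h3]
  exact (((ord_gg_succ D hX J a).mono (Nat.le_succ J)).mn.neg).sub (Oc.sum _ fun b _ => h2 b)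

/-- the formal solution -/
theorem alg_ord (hD : ∀ μ, D.k μ ≠ 0) (K : ℕ) (a : Fin n) :
    Ord K (LL (XX D K (K + 1) a) - GG D K (XX D K (K + 1)) a) := by
  obtain ⟨a1, a2, a3, a4⟩ := XX_all D hD K K
  have hd : ∀ b, Ord K (XX D K (K + 1) b - XX D K K b) := fun b => Ord.of' (a3 b) (a4 b) (by omega) (by omega)
  have h1 : ∀ b, Ord K (GG D K (XX D K (K + 1)) b - GG D K (XX D K K) b) := fun b =>
    ord_gg_sub D (fun i => (a1 i).mono (by omega)) (fun i => (a2 i).mono (by omega)) hd K b
  have h2 : ∀ b, Ord K (GG D K (XX D K (K + 1)) b - LL (XX D K (K + 1) b) -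
      AddMonoidAlgebra.single 0 (mn (GG D K (XX D K K) b))) := by
    intro b
    have e : GG D K (XX D K (K + 1)) b - LL (XX D K (K + 1) b) - AddMonoidAlgebra.single 0 (mn (GG D K (XX D K K) b)) =
        (GG D K (XX D K (K + 1)) b - GG D K (XX D K K) b) + (GG D K (XX D K K) b - LL (TT (GG D K (XX D K K) b)) -
          AddMonoidAlgebra.single 0 (mn (GG D K (XX D K K) b))) := by
      show GG D K (XX D K (K + 1)) b - LL (TT (GG D K (XX D K K) b)) -
        AddMonoidAlgebra.single 0 (mn (GG D K (XX D K K) b)) = _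
      ring
    rw [e]
    exact (h1 b).add (ord_LLTT K _)
  have h3 := oc_mean D (fun i => (a2 i).mono (by omega)) _ h2 a
  have h4 : Oc K (mn (GG D K (XX D K K) a)) := by
    have e : mn (GG D K (XX D K K) a) = mn (GG D K (XX D K (K + 1)) a) -
        mn (GG D K (XX D K (K + 1)) a - GG D K (XX D K K) a) := by
      rw [mn_sub]; ring
    rw [e]
    exact h3.sub (h1 a).mn
  have e : LL (XX D K (K + 1) a) - GG D K (XX D K (K + 1)) a =
      -((GG D K (XX D K (K + 1)) a - LL (XX D K (K + 1) a) - AddMonoidAlgebra.single 0 (mn (GG D K (XX D K K) a))) +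
        AddMonoidAlgebra.single 0 (mn (GG D K (XX D K K) a))) := by ring
  rw [e]
  exact ((h2 a).add (Ord.single h4)).neg

end Pool.Agent.J6H70.AD
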