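import Pool.Agent.J6H70.AD.Avg1

/-!
# Averaging to arbitrary order: the algebraic part `S_ALG` and the analytic part `S_ANA`
-/

set_option autoImplicit false

open Set Filter Topology
open scoped ContDiff

noncomputable section

namespace Pool.Agent.J6H70.AD

open Pool.Agent.N980.TL

variable {n N : ℕ}

/-- the wave vectors of `D` in exponential form -/
def kk (D : Trig n N) (ν : Fin N × Bool) : Fin n → ℤ := if ν.2 then D.k ν.1 else -D.k ν.1

/-- the frequencies of `D` in exponential form -/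
def mm (D : Trig n N) (ν : Fin N × Bool) : ℤ := if ν.2 then D.m ν.1 else -D.m ν.1

/-- the coefficients of `D` in exponential form -/
def cf (D : Trig n N) (ν : Fin N × Bool) : ℂ :=
  (D.c ν.1 / 2 : ℝ) * Complex.exp (((if ν.2 then D.ph ν.1 else -D.ph ν.1 : ℝ) : ℂ) * Complex.I)

/-- the truncated exponential series -/
def ex (J : ℕ) (z : RR n) : RR n := ∑ j ∈ Finset.range (J + 1), ((j.factorial : ℂ)⁻¹) • z ^ j

/-- the phase shift `2πi k·X` -/
def zt (D : Trig n N) (ν : Fin N × Bool) (X : Fin n → RR n) : RR n :=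
  ∑ j, (2 * Real.pi * Complex.I * (kk D ν j : ℂ)) • X j

/-- the force, with the truncated exponential series -/
def GG (D : Trig n N) (J : ℕ) (X : Fin n → RR n) (i : Fin n) : RR n :=
  ∑ ν, AddMonoidAlgebra.single (kk D ν, mm D ν) (fun _ => cf D ν * (2 * Real.pi * Complex.I * (kk D ν i : ℂ))) *
    ex J (zt D ν X)

/-- the derivative along the lines -/
def om (γ : Md n) : Fc n := fun v => 2 * Real.pi * Complex.I * (((∑ i, (γ.1 i : ℝ) * v i) + γ.2 : ℝ) : ℂ)

/-- the second derivative along the lines -/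
def LL (f : RR n) : RR n := dg (fun γ => om γ * om γ) f

/-- real functions -/
def Herm (f : RR n) : Prop := ∀ (γ : Md n) (v : Fin n → ℝ), f.coeff (-γ) v = (starRingEnd ℂ) (f.coeff γ v)

/-- the algebraic part: a formal solution up to order `K` -/
def S_ALG : Prop :=
  ∀ (n N : ℕ) (D : Trig n N), (∀ μ, D.k μ ≠ 0) → ∀ K : ℕ,
    ∃ X : Fin n → RR n, (∀ i, Ord 2 (X i)) ∧ (∀ i, Herm (X i)) ∧ ∀ i, Ord K (LL (X i) - GG D K X i)

/-- evaluation at the velocity `v`, the position `θ` and the time `τ` -/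
def ev (v θ : Fin n → ℝ) (τ : ℝ) (f : RR n) : ℂ :=
  f.coeff.sum fun γ c => c v * Complex.exp (2 * Real.pi * Complex.I * (((∑ i, (γ.1 i : ℝ) * θ i) + γ.2 * τ : ℝ) : ℂ))

/-- the analytic part: formal solutions give corrections -/
def S_ANA : Prop :=
  ∀ (n N : ℕ) (D : Trig n N) (K : ℕ) (X : Fin n → RR n), (∀ i, Ord 2 (X i)) → (∀ i, Herm (X i)) →
    (∀ i, Ord K (LL (X i) - GG D K X i)) → ∃ S : ℕ, Corr D K S (fun v θ τ i => (ev v θ τ (X i)).re)

theorem avg_of (h1 : S_ALG) (h2 : S_ANA) : S_AVG := by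
  intro n N D hD K
  obtain ⟨X, a, b, c⟩ := h1 n N D hD K
  obtain ⟨S, h⟩ := h2 n N D K X a b c
  exact ⟨S, _, h⟩

end Pool.Agent.J6H70.AD
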