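import Pool.Agent.J6H70.AD.AvgDef

/-!
# The analytic part of the averaging: periodicity and dependence on the parameters
-/

set_option autoImplicit false

open Set Filter Topology
open scoped ContDiff

noncomputable section

namespace Pool.Agent.J6H70.AD

open Pool.Agent.N980.TL

variable {n N : ℕ} {p : ℕ}

theorem NRS.mono' {n : ℕ} {S S' : ℕ} (h : S ≤ S') {c1 C1 V : ℝ} {v : Fin n → ℝ} (hv : NRS S' c1 C1 V v) :
    NRS S c1 C1 V v := hv.mono h

/-- uniform bounds of the coefficients of finitely many formal trigonometric polynomials -/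
theorem unif {ι : Type} [Fintype ι] (X : ι → RR n) (hX : ∀ i, Ord p (X i)) :
    ∃ S : ℕ, ∀ c1 C1 : ℝ, 0 < c1 → ∃ C : ℝ, 0 ≤ C ∧ ∀ (V : ℝ) (v v' : Fin n → ℝ), 1 ≤ V →
      NRS S c1 C1 V v → NRS S c1 C1 V v' → ∀ i, ∀ γ ∈ (X i).coeff.support,
        ‖(X i).coeff γ v‖ ≤ C / V ^ p ∧ ‖(X i).coeff γ v - (X i).coeff γ v'‖ ≤ C / V ^ p * ‖v - v'‖ := by
  classical
  have h : ∀ (i : ι) (γ : Md n), ∃ S : ℕ, ∀ c1 C1 : ℝ, 0 < c1 → ∃ C : ℝ, 0 ≤ C ∧ ∀ (V : ℝ) (v v' : Fin n → ℝ), 1 ≤ V →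
    NRS S c1 C1 V v → NRS S c1 C1 V v' →
      ‖(X i).coeff γ v‖ ≤ C / V ^ p ∧ ‖(X i).coeff γ v - (X i).coeff γ v'‖ ≤ C / V ^ p * ‖v - v'‖ := fun i γ => hX i γ
  choose S hS using h
  refine ⟨∑ i, ∑ γ ∈ (X i).coeff.support, S i γ, fun c1 C1 hc => ?_⟩
  have h2 := fun i γ => hS i γ c1 C1 hc
  choose C hC h3 using h2
  refine ⟨∑ i, ∑ γ ∈ (X i).coeff.support, C i γ, Finset.sum_nonneg fun i _ => Finset.sum_nonneg fun γ _ => hC i γ,
    fun V v v' hV h1 h2 i γ hγ => ?_⟩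
  have k1 : S i γ ≤ ∑ i, ∑ γ ∈ (X i).coeff.support, S i γ :=
    (Finset.single_le_sum (f := fun γ => S i γ) (fun _ _ => Nat.zero_le _) hγ).trans
      (Finset.single_le_sum (f := fun i => ∑ γ ∈ (X i).coeff.support, S i γ) (fun _ _ => Nat.zero_le _)
        (Finset.mem_univ i))
  have k2 : C i γ ≤ ∑ i, ∑ γ ∈ (X i).coeff.support, C i γ :=
    (Finset.single_le_sum (f := fun γ => C i γ) (fun _ _ => hC _ _) hγ).trans
      (Finset.single_le_sum (f := fun i => ∑ γ ∈ (X i).coeff.support, C i γ)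
        (fun i _ => Finset.sum_nonneg fun γ _ => hC i γ) (Finset.mem_univ i))
  obtain ⟨m1, m2⟩ := h3 i γ V v v' hV (h1.mono k1) (h2.mono k1)
  have hVp : (0 : ℝ) < V ^ p := by positivity
  have k3 := div_le_div_of_nonneg_right k2 hVp.le
  exact ⟨m1.trans k3, m2.trans (mul_le_mul_of_nonneg_right k3 (norm_nonneg _))⟩

theorem ev_per (v θ : Fin n → ℝ) (τ : ℝ) (a : Fin n → ℤ) (b : ℤ) (f : RR n) :
    ev v (fun i => θ i + a i) (τ + b) f = ev v θ τ f := by
  unfold ev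
  refine Finsupp.sum_congr fun γ _ => ?_
  congr 1
  have e : 2 * (Real.pi : ℂ) * Complex.I * (((∑ i, (γ.1 i : ℝ) * (θ i + a i)) + γ.2 * (τ + b) : ℝ) : ℂ) =
      2 * Real.pi * Complex.I * (((∑ i, (γ.1 i : ℝ) * θ i) + γ.2 * τ : ℝ) : ℂ) +
        (((∑ i, γ.1 i * a i) + γ.2 * b : ℤ) : ℂ) * (2 * Real.pi * Complex.I) := by
    push_cast
    simp only [mul_add, Finset.sum_add_distrib]
    ring
  rw [e, Complex.exp_add, Complex.exp_int_mul_two_pi_mul_I, mul_one]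

theorem exp_lip (α β : ℝ) : ‖Complex.exp (2 * Real.pi * Complex.I * (α : ℂ)) - Complex.exp (2 * Real.pi * Complex.I * (β : ℂ))‖ ≤
    2 * Real.pi * |α - β| := by
  have e : Complex.exp (2 * Real.pi * Complex.I * (α : ℂ)) - Complex.exp (2 * Real.pi * Complex.I * (β : ℂ)) =
      Complex.exp (2 * Real.pi * Complex.I * (β : ℂ)) *
        (Complex.exp (Complex.I * ((2 * Real.pi * (α - β) : ℝ) : ℂ)) - 1) := by
    rw [mul_sub, mul_one, ← Complex.exp_add]
    congr 2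
    push_cast
    ring
  have e2 : ‖Complex.exp (2 * Real.pi * Complex.I * (β : ℂ))‖ = 1 := by
    have : 2 * (Real.pi : ℂ) * Complex.I * (β : ℂ) = ((2 * Real.pi * β : ℝ) : ℂ) * Complex.I := by
      push_cast; ring
    rw [this, Complex.norm_exp_ofReal_mul_I]
  rw [e, norm_mul, e2, one_mul]
  refine (Real.norm_exp_I_mul_ofReal_sub_one_le).trans ?_
  rw [Real.norm_eq_abs, abs_mul, abs_of_pos (by positivity : 0 < 2 * Real.pi)]

theorem norm_exp_one (α : ℝ) : ‖Complex.exp (2 * Real.pi * Complex.I * (α : ℂ))‖ = 1 := by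
  have : 2 * (Real.pi : ℂ) * Complex.I * (α : ℂ) = ((2 * Real.pi * α : ℝ) : ℂ) * Complex.I := by
    push_cast; ring
  rw [this, Complex.norm_exp_ofReal_mul_I]

theorem cont_all (X : Fin n → RR n) (hX : ∀ i, Ord 2 (X i)) :
    ∃ S : ℕ, ∀ c1 C1 : ℝ, 0 < c1 → ∃ C : ℝ, 1 ≤ C ∧ ∀ (V : ℝ) (v v' θ θ' : Fin n → ℝ) (τ : ℝ), 1 ≤ V →
      NRS S c1 C1 V v → NRS S c1 C1 V v' → ∀ i,
        |(ev v θ τ (X i)).re| ≤ C / V ^ 2 ∧
        |(ev v θ τ (X i)).re - (ev v' θ' τ (X i)).re| ≤ C / V ^ 2 * (‖θ - θ'‖ + ‖v - v'‖) := by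
  classical
  obtain ⟨S, hS⟩ := unif X hX
  refine ⟨S, fun c1 C1 hc => ?_⟩
  obtain ⟨C, hC, h⟩ := hS c1 C1 hc
  set κ : Md n → ℝ := fun γ => 1 + 2 * Real.pi * ∑ i, |(γ.1 i : ℝ)| with hκ
  have hκ1 : ∀ γ, 1 ≤ κ γ := fun γ => by
    have : 0 ≤ 2 * Real.pi * ∑ i, |(γ.1 i : ℝ)| :=
      mul_nonneg (by positivity) (Finset.sum_nonneg fun _ _ => abs_nonneg _)
    simp only [hκ]; linarith
  set T : ℝ := ∑ i, ∑ γ ∈ (X i).coeff.support, C * κ γ with hT
  have hT0 : ∀ i, ∑ γ ∈ (X i).coeff.support, C * κ γ ≤ T := fun i =>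
    Finset.single_le_sum (f := fun i => ∑ γ ∈ (X i).coeff.support, C * κ γ)
      (fun i _ => Finset.sum_nonneg fun γ _ => mul_nonneg hC (by linarith [hκ1 γ])) (Finset.mem_univ i)
  have hTn : 0 ≤ T := Finset.sum_nonneg fun i _ => Finset.sum_nonneg fun γ _ => mul_nonneg hC (by linarith [hκ1 γ])
  refine ⟨1 + T, by linarith, fun V v v' θ θ' τ hV h1 h2 i => ?_⟩
  have hVp : (0 : ℝ) < V ^ 2 := by positivity
  constructor
  · refine (Complex.abs_re_le_norm _).trans ?_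
    unfold ev Finsupp.sum
    refine (norm_sum_le _ _).trans ?_
    have e1 : ∀ γ ∈ (X i).coeff.support, ‖(X i).coeff γ v * Complex.exp (2 * Real.pi * Complex.I *
        (((∑ i, (γ.1 i : ℝ) * θ i) + γ.2 * τ : ℝ) : ℂ))‖ ≤ C * κ γ / V ^ 2 := by
      intro γ hγ
      rw [norm_mul, norm_exp_one, mul_one]
      refine ((h V v v' hV h1 h2 i γ hγ).1).trans (div_le_div_of_nonneg_right ?_ hVp.le)
      exact le_mul_of_one_le_right hC (hκ1 γ)
    refine (Finset.sum_le_sum e1).trans ?_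
    rw [← Finset.sum_div]
    exact div_le_div_of_nonneg_right (by linarith [hT0 i]) hVp.le
  · rw [← Complex.sub_re]
    refine (Complex.abs_re_le_norm _).trans ?_
    unfold ev Finsupp.sum
    rw [← Finset.sum_sub_distrib]
    refine (norm_sum_le _ _).trans ?_
    have e1 : ∀ γ ∈ (X i).coeff.support, ‖(X i).coeff γ v * Complex.exp (2 * Real.pi * Complex.I *
        (((∑ i, (γ.1 i : ℝ) * θ i) + γ.2 * τ : ℝ) : ℂ)) - (X i).coeff γ v' * Complex.exp (2 * Real.pi * Complex.I *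
        (((∑ i, (γ.1 i : ℝ) * θ' i) + γ.2 * τ : ℝ) : ℂ))‖ ≤ C * κ γ / V ^ 2 * (‖θ - θ'‖ + ‖v - v'‖) := by
      intro γ hγ
      obtain ⟨m1, m2⟩ := h V v v' hV h1 h2 i γ hγ
      obtain ⟨m3, -⟩ := h V v' v hV h2 h1 i γ hγ
      set α : ℝ := (∑ i, (γ.1 i : ℝ) * θ i) + γ.2 * τ with hα
      set β : ℝ := (∑ i, (γ.1 i : ℝ) * θ' i) + γ.2 * τ with hβ
      have e2 : (X i).coeff γ v * Complex.exp (2 * Real.pi * Complex.I * (α : ℂ)) -
          (X i).coeff γ v' * Complex.exp (2 * Real.pi * Complex.I * (β : ℂ)) =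
          ((X i).coeff γ v - (X i).coeff γ v') * Complex.exp (2 * Real.pi * Complex.I * (α : ℂ)) +
            (X i).coeff γ v' * (Complex.exp (2 * Real.pi * Complex.I * (α : ℂ)) -
              Complex.exp (2 * Real.pi * Complex.I * (β : ℂ))) := by ring
      rw [e2]
      refine (norm_add_le _ _).trans ?_
      rw [norm_mul, norm_mul, norm_exp_one, mul_one]
      have m4 := exp_lip α β
      have m5 : |α - β| ≤ (∑ i, |(γ.1 i : ℝ)|) * ‖θ - θ'‖ := by
        have e3 : α - β = ∑ i, (γ.1 i : ℝ) * (θ i - θ' i) := by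
          rw [hα, hβ, add_sub_add_right_eq_sub, ← Finset.sum_sub_distrib]
          exact Finset.sum_congr rfl fun i _ => by ring
        rw [e3, Finset.sum_mul]
        refine (Finset.abs_sum_le_sum_abs _ _).trans (Finset.sum_le_sum fun i _ => ?_)
        rw [abs_mul]
        refine mul_le_mul_of_nonneg_left ?_ (abs_nonneg _)
        have := norm_le_pi_norm (θ - θ') i
        rwa [Real.norm_eq_abs] at this
      have m6 : ‖Complex.exp (2 * Real.pi * Complex.I * (α : ℂ)) -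
              Complex.exp (2 * Real.pi * Complex.I * (β : ℂ))‖ ≤ κ γ * ‖θ - θ'‖ := by
        refine m4.trans ?_
        have m7 := mul_le_mul_of_nonneg_left m5 (by positivity : 0 ≤ 2 * Real.pi)
        have m8 : 0 ≤ ‖θ - θ'‖ := norm_nonneg _
        simp only [hκ]
        nlinarith
      have m9 : ‖(X i).coeff γ v'‖ * ‖Complex.exp (2 * Real.pi * Complex.I * (α : ℂ)) -
              Complex.exp (2 * Real.pi * Complex.I * (β : ℂ))‖ ≤ C / V ^ 2 * (κ γ * ‖θ - θ'‖) :=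
        mul_le_mul m3 m6 (norm_nonneg _) (by positivity)
      have m10 : C / V ^ 2 * ‖v - v'‖ ≤ C / V ^ 2 * (κ γ * ‖v - v'‖) := by
        refine mul_le_mul_of_nonneg_left ?_ (by positivity)
        exact le_mul_of_one_le_left (norm_nonneg _) (hκ1 γ)
      calc _ ≤ C / V ^ 2 * (κ γ * ‖v - v'‖) + C / V ^ 2 * (κ γ * ‖θ - θ'‖) := add_le_add (m2.trans m10) m9
        _ = _ := by ring
    refine (Finset.sum_le_sum e1).trans ?_
    rw [← Finset.sum_mul, ← Finset.sum_div]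
    refine mul_le_mul_of_nonneg_right (div_le_div_of_nonneg_right (by linarith [hT0 i]) hVp.le) (by positivity)

end Pool.Agent.J6H70.AD
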