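import Pool.Agent.N980.TL.Stm2
import Pool.Agent.N980.TL.Stm3
import Pool.Agent.N980.TL.Stm4

/-!
# Escaping orbits in all dimensions `n ≥ 2`: definitions and statements of the leaves
-/

set_option autoImplicit false

open Set Filter Topology MeasureTheory
open scoped ContDiff

noncomputable section

namespace Pool.Agent.J6H70.AD

open Pool.Agent.N980.TL

/-- the velocity `v` is of size `V` and not resonant up to order `S` -/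
def NRS {n : ℕ} (S : ℕ) (c1 C1 V : ℝ) (v : Fin n → ℝ) : Prop :=
  (∀ (k : Fin n → ℤ) (m : ℤ), k ≠ 0 → (∀ i, |k i| ≤ S) → |m| ≤ S →
    c1 * V ≤ |(∑ i, (k i : ℝ) * v i) + m|) ∧ ‖v‖ ≤ C1 * V

/-- `X v θ τ` is a correction of the lines `P + s v` (with `θ = P + s v`, `τ = s`) in the potential `D` up to
order `V^(-K)`; velocities not resonant up to order `S` -/
structure Corr {n N : ℕ} (D : Trig n N) (K S : ℕ)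
    (X : (Fin n → ℝ) → (Fin n → ℝ) → ℝ → Fin n → ℝ) : Prop where
  per : ∀ v θ τ (a : Fin n → ℤ) (b : ℤ), X v (fun i => θ i + a i) (τ + b) = X v θ τ
  xi : ∀ c1 C1 : ℝ, 0 < c1 → ∃ C : ℝ, 1 ≤ C ∧ ∀ (V : ℝ) (P v : Fin n → ℝ), 1 ≤ V →
    NRS S c1 C1 V v → ∀ i,
      Cls 4 V (C / V ^ 2) (fun s => X v (P + s • v) s i) ∧
      Cls 2 V (C / V ^ K) (fun s => deriv (deriv fun s => X v (P + s • v) s i) s -
        D.grad (fun j => P j + s * v j + X v (P + s • v) s j) s i)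
  lip : ∀ c1 C1 : ℝ, 0 < c1 → ∃ C : ℝ, 1 ≤ C ∧ ∀ (V kp : ℝ) (P v A : Fin n → ℝ), 1 ≤ V →
    0 ≤ kp → kp ≤ 1 → ‖A‖ ≤ 1 → NRS S c1 C1 V v → NRS S c1 C1 V (v + A) → ∀ i,
      Cls 4 V (C * ‖A‖ / V ^ 2) (fun s =>
        X (v + A) (P + v + kp • A + (s - 1) • (v + A)) (s - 1) i - X v (P + s • v) s i)
  cont : ∀ c1 C1 : ℝ, 0 < c1 → ∃ C : ℝ, 1 ≤ C ∧ ∀ (V : ℝ) (v v' θ θ' : Fin n → ℝ) (τ : ℝ), 1 ≤ V →
    NRS S c1 C1 V v → NRS S c1 C1 V v' → ∀ i,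
      |X v θ τ i| ≤ C / V ^ 2 ∧ |X v θ τ i - X v' θ' τ i| ≤ C / V ^ 2 * (‖θ - θ'‖ + ‖v - v'‖)

/-- Leaf AVG: averaging to arbitrary order -/
def S_AVG : Prop :=
  ∀ (n N : ℕ) (D : Trig n N), (∀ μ, D.k μ ≠ 0) → ∀ K : ℕ,
    ∃ (S : ℕ) (X : (Fin n → ℝ) → (Fin n → ℝ) → ℝ → Fin n → ℝ), Corr D K S X

/-- the path of one step: the line with its correction, blended with the next one -/
def gm {n : ℕ} (X : (Fin n → ℝ) → (Fin n → ℝ) → ℝ → Fin n → ℝ) (P v A : Fin n → ℝ) (s : ℝ) (i : Fin n) : ℝ :=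
  P i + s * v i + th s * A i + X v (P + s • v) s i +
    tp s * (X (v + A) (P + v + kap • A + (s - 1) • (v + A)) (s - 1) i - X v (P + s • v) s i)

/-- Leaf GAM5 (copy of `Gam.lean` and `gam_deriv` of `Prep3.lean`, with `D.xi` replaced by `X`) -/
def S_GAM5 : Prop :=
  ∀ (n N : ℕ) (D : Trig n N) (K S : ℕ) (X : (Fin n → ℝ) → (Fin n → ℝ) → ℝ → Fin n → ℝ), Corr D K S X →
    ∀ c1 C1 : ℝ, 0 < c1 → ∃ C : ℝ, 1 ≤ C ∧ ∀ (V : ℝ) (P v A : Fin n → ℝ), 1 ≤ V →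
      ‖A‖ ≤ 1 → NRS S c1 C1 V v → NRS S c1 C1 V (v + A) → ∀ i,
        ContDiff ℝ ∞ (fun s => gm X P v A s i) ∧ Cls 2 V (C * V) (deriv fun s => gm X P v A s i) ∧
        (∀ s ∈ Icc (-1 : ℝ) 2, |gm X P v A s i - (P i + s * v i + th s * A i)| ≤ C / V ^ 2) ∧
        Cls 2 V (C * (‖A‖ + 1 / V ^ K)) (fun s => deriv (deriv fun s => gm X P v A s i) s -
          D.grad (fun j => gm X P v A s j) s i) ∧
        ∀ s, 0 ≤ s → s ≤ 1 → |deriv (fun s => gm X P v A s i) s - (v i + tp s * A i)| ≤ C / V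

/-- Leaf COL5: if two corrected paths nearly collide, then the uncorrected ones nearly collide -/
def S_COL5 : Prop :=
  ∀ (n N : ℕ) (D : Trig n N) (K S : ℕ) (X : (Fin n → ℝ) → (Fin n → ℝ) → ℝ → Fin n → ℝ), Corr D K S X →
    ∀ c1 C1 : ℝ, 0 < c1 → ∃ C : ℝ, 1 ≤ C ∧ ∀ (V V' : ℝ) (P v A P' v' A' : Fin n → ℝ), 1 ≤ V → V ≤ V' →
      C ≤ V → ‖A‖ ≤ 1 → ‖A'‖ ≤ 1 → NRS S c1 C1 V v → NRS S c1 C1 V (v + A) →
      NRS S c1 C1 V' v' → NRS S c1 C1 V' (v' + A') →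
      (‖v' - v‖ ≤ 1 → NRS S c1 C1 V v' ∧ NRS S c1 C1 V (v' + A')) →
      ∀ (s e : ℝ), -1 ≤ s → s ≤ 1 → ∀ a : Fin n → ℤ,
        (∀ i, |gm X P' v' A' s i - gm X P v A s i - a i| ≤ e) →
        ∀ i, |pos P' v' A' s i - pos P v A s i - a i| ≤
          2 * e + C / V ^ 2 * min 1 (‖v' - v‖ + ‖A‖ + ‖A'‖)

/-- the scale `2 ^ (l / 50)` -/
def yy (l : ℕ) : ℝ := (2 : ℝ) ^ ((l : ℝ) / 50)

/-- the fast velocity is not close to a rational number with small denominator -/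
def GoodV (l : ℕ) (V : ℝ) : Prop :=
  ∀ g : ℕ, 1 ≤ g → (g : ℝ) ≤ yy l ^ 9 → 1 / yy l ^ 27 ≤ |g * V - round ((g : ℝ) * V)|

/-- the fast velocities -/
structure VSeq (l0 : ℕ) (V : ℕ → ℝ) : Prop where
  const : ∀ j < 2 ^ l0, V (j + 1) = V j
  mono : ∀ j, V j ≤ V (j + 1)
  lo : ∀ l, l0 ≤ l → ∀ j ∈ Finset.Ico (2 ^ l) (2 ^ (l + 1)), yy l ^ 2 ≤ V j
  hi : ∀ l, l0 ≤ l → ∀ j ∈ Finset.Ico (2 ^ l) (2 ^ (l + 1)), V j ≤ 2 * yy l ^ 2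
  step : ∀ l, l0 ≤ l → ∀ j ∈ Finset.Ico (2 ^ l) (2 ^ (l + 1)), V (j + 1) - V j ≤ 1 / yy l ^ 48
  bad : ∀ l, l0 ≤ l → ∀ j ∈ Finset.Ico (2 ^ l) (2 ^ (l + 1)), ¬ GoodV l (V j) →
    V (j + 1) - V j ≤ 1 / yy l ^ 56

/-- Leaf V5: the fast velocities (`V (j+1) = V j + (if V j < yy (l+1)^2 then (if GoodV l (V j) then
1/yy l^48 else 1/yy l^56) else 0)` with `l = Nat.log 2 j`; compare `VINF.lean`) -/
def S_V5 : Prop := ∃ L : ℕ, ∀ l0, L ≤ l0 → ∃ V : ℕ → ℝ, VSeq l0 V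

open Classical in
/-- the radius -/
def rd (c2 : ℝ) (l : ℕ) (V : ℝ) : ℝ := c2 * if GoodV l V then 1 / yy l ^ 43 else ww (1 / 32) (l + 2)

/-- Leaf SEP5: the uncorrected paths (in the coordinates `z`) are separated -/
def S_SEP5 : Prop :=
  ∀ B0 : ℝ, 1 ≤ B0 → ∃ (c2 : ℝ) (L : ℕ), 0 < c2 ∧ c2 ≤ 1 ∧ ∀ l0, L ≤ l0 → ∀ V : ℕ → ℝ, VSeq l0 V →
    ∀ (r : ℕ) (P U A : ℕ → E (r + 2)), (∀ j, U (j + 1) = U j + A j) →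
      (∀ j, P (j + 1) = P j + U j + kap • A j) →
      (∀ j, U j 0 = V j) → (∀ j, U j 1 = uu (1 / 32) j) → P 0 1 = 0 →
      (∀ (i : Fin r) (j : ℕ), U j i.succ.succ = 0) →
      ∀ i j, 2 ^ l0 ≤ i → i < j → ∀ σ : ℝ, -1 ≤ σ → σ ≤ 1 →
        let z := pos (P j) (U j) (A j) σ - pos (P i) (U i) (A i) σ
        let Δ := B0 * (rd c2 (Nat.log 2 i) (V i) + rd c2 (Nat.log 2 j) (V j) + min 1 ‖U j - U i‖ / V i ^ 2)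
        (0 ≤ z 1 ∧ z 1 ≤ 1 / 2) ∧ ∀ m : ℤ, ¬ (z 1 ≤ Δ ∧ |z 0 - m| ≤ Δ)

/-- Main theorem for trigonometric polynomials -/
def S_MAIN5 : Prop :=
  ∀ (r N0 : ℕ) (D0 : Trig (r + 2) N0) (ε : ℝ), 0 < ε → ∀ (Vmin : ℝ),
    ∃ (F : Z (r + 2) → ℝ) (γ : ℝ → Fin (r + 2) → ℝ),
      ContDiff ℝ 2 F ∧ Periodic (fun x t => F (x, t)) ∧ (∀ i ≤ 2, ∀ q, ‖iteratedFDeriv ℝ i F q‖ ≤ ε) ∧
      (∃ c > 0, ∀ t, 0 ≤ t → c * t ^ (1 / 25 : ℝ) ≤ ‖deriv γ t‖) ∧ (∀ t, 0 ≤ t → Vmin < ‖deriv γ t‖) ∧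
      ∀ L : (Fin (r + 2) → ℝ) → (Fin (r + 2) → ℝ) → ℝ → ℝ,
        (∀ x v t, Vmin ≤ ‖v‖ → L x v t = (∑ i, v i ^ 2) / 2) →
        ∀ t, 0 < t → EulerLagrange (fun x v t => L x v t + (D0.val x t + F (x, t))) γ t

end Pool.Agent.J6H70.AD
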