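import Pool.Agent.J6H70.AD.AvgDef

/-!
# The Taylor remainder of `exp(i g)` in the classes
-/

set_option autoImplicit false

open Set Filter Topology
open scoped ContDiff

noncomputable section

namespace Pool.Agent.J6H70.AD

open Pool.Agent.N980.TL

/-- the Taylor remainder of order `m` of `exp(iy)` -/
def rem (m : ℕ) (y : ℝ) : ℂ :=
  Complex.exp (y * Complex.I) - ∑ j ∈ Finset.range m, ((y : ℂ) * Complex.I) ^ j / (j.factorial : ℂ)

theorem rem_norm (m : ℕ) (y : ℝ) : ‖rem m y‖ ≤ |y| ^ m * Real.exp |y| := by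
  have h := Complex.norm_exp_sub_sum_le_norm_mul_exp ((y : ℂ) * Complex.I) m
  rw [norm_mul, Complex.norm_I, mul_one, Complex.norm_real, Real.norm_eq_abs] at h
  exact h

theorem rem_deriv (m : ℕ) (y : ℝ) : HasDerivAt (rem m) (Complex.I * rem (m - 1) y) y := by
  have h0 : HasDerivAt (fun y : ℝ => (y : ℂ) * Complex.I) Complex.I y := by
    have := (Complex.ofRealCLM.hasDerivAt (x := y)).mul_const Complex.I
    simpa using this
  have h1 : HasDerivAt (fun y : ℝ => Complex.exp (y * Complex.I)) (Complex.exp (y * Complex.I) * Complex.I) y :=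
    h0.cexp
  induction m with
  | zero =>
    have e : rem 0 = fun y : ℝ => Complex.exp (y * Complex.I) := by
      funext y
      simp [rem]
    rw [e]
    exact h1.congr_deriv (mul_comm _ _)
  | succ m ih =>
    have e : rem (m + 1) = fun y => rem m y - ((y : ℂ) * Complex.I) ^ m / (m.factorial : ℂ) := by
      funext y
      unfold rem
      rw [Finset.sum_range_succ]
      ring
    have h2 : HasDerivAt (fun y : ℝ => ((y : ℂ) * Complex.I) ^ m / (m.factorial : ℂ))
        ((m : ℂ) * ((y : ℂ) * Complex.I) ^ (m - 1) * Complex.I / (m.factorial : ℂ)) y :=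
      (h0.pow m).div_const _
    rw [e]
    refine (ih.sub h2).congr_deriv ?_
    rw [Nat.add_sub_cancel]
    rcases m with _ | m
    · simp
    · rw [Nat.add_sub_cancel]
      have e3 : rem (m + 1) y = rem m y - ((y : ℂ) * Complex.I) ^ m / (m.factorial : ℂ) := by
        unfold rem
        rw [Finset.sum_range_succ]
        ring
      rw [e3, Nat.factorial_succ]
      have h3 : ((m : ℂ) + 1) ≠ 0 := by exact_mod_cast Nat.succ_ne_zero m
      have h4 : ((m.factorial : ℕ) : ℂ) ≠ 0 := by exact_mod_cast Nat.factorial_ne_zero m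
      push_cast
      field_simp

theorem rem_smooth (m : ℕ) : ContDiff ℝ ∞ (rem m) := by
  unfold rem
  have h0 : ContDiff ℝ ∞ (fun y : ℝ => (y : ℂ) * Complex.I) := by
    have : ContDiff ℝ ∞ (fun y : ℝ => (y : ℂ)) := Complex.ofRealCLM.contDiff
    exact this.mul contDiff_const
  refine (h0.cexp).sub (ContDiff.sum fun j _ => ?_)
  exact (h0.pow j).div_const _

theorem tayC (c : ℂ →L[ℝ] ℝ) (hc : ∀ z, |c z| ≤ ‖z‖) (K : ℕ) (R : ℝ) : ∃ C : ℝ, 0 ≤ C ∧
    ∀ (V ρ : ℝ) (g : ℝ → ℝ), 1 ≤ V → 0 ≤ ρ → ρ ≤ R → Cls 2 V ρ g →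
      Cls 2 V (C * ρ ^ (K + 1)) (fun s => c (rem (K + 1) (g s))) := by
  by_cases hR : 0 ≤ R
  swap
  · exact ⟨0, le_rfl, fun V ρ g hV hρ hρR _ => absurd (hρ.trans hρR) hR⟩
  refine ⟨Real.exp R * (2 + R), by positivity, fun V ρ g hV hρ hρR hg => ?_⟩
  obtain ⟨hs, hb⟩ := hg
  have hV0 : 0 < V := by linarith
  have g0 : ∀ s, HasDerivAt g (deriv g s) s := fun s => (hs.differentiable (by simp) s).hasDerivAt
  have hs1 : ContDiff ℝ ∞ (deriv g) := (contDiff_infty_iff_deriv.1 hs).2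
  have g1 : ∀ s, HasDerivAt (deriv g) (deriv (deriv g) s) s := fun s =>
    (hs1.differentiable (by simp) s).hasDerivAt
  have H : ∀ m s, HasDerivAt (fun s => rem m (g s)) (Complex.I * rem (m - 1) (g s) * (deriv g s : ℝ)) s := by
    intro m s
    have h := (rem_deriv m (g s)).scomp s (g0 s)
    refine h.congr_deriv ?_
    rw [Complex.real_smul]
    ring
  have hF : ContDiff ℝ ∞ (fun s => c (rem (K + 1) (g s))) := c.contDiff.comp ((rem_smooth (K + 1)).comp hs)
  have d1 : ∀ s, HasDerivAt (fun s => c (rem (K + 1) (g s))) (c (Complex.I * rem K (g s) * (deriv g s : ℝ))) s := by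
    intro s
    exact c.hasFDerivAt.comp_hasDerivAt s (H (K + 1) s)
  have e1 : deriv (fun s => c (rem (K + 1) (g s))) = fun s => c (Complex.I * rem K (g s) * (deriv g s : ℝ)) :=
    funext fun s => (d1 s).deriv
  have d2 : ∀ s, HasDerivAt (fun s => c (Complex.I * rem K (g s) * (deriv g s : ℝ)))
      (c (Complex.I * (Complex.I * rem (K - 1) (g s) * (deriv g s : ℝ)) * (deriv g s : ℝ) +
        Complex.I * rem K (g s) * (deriv (deriv g) s : ℝ))) s := by
    intro s
    have h3 : HasDerivAt (fun s => ((deriv g s : ℝ) : ℂ)) ((deriv (deriv g) s : ℝ) : ℂ) s := (g1 s).ofReal_comp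
    exact c.hasFDerivAt.comp_hasDerivAt s (((H K s).const_mul Complex.I).mul h3)
  refine ⟨hF, fun i hi s hsI => ?_⟩
  have b0 := hb 0 (by norm_num) s hsI
  have b1 := hb 1 (by norm_num) s hsI
  have b2 := hb 2 (by norm_num) s hsI
  rw [iteratedDeriv_zero, pow_zero, mul_one] at b0
  rw [iteratedDeriv_one, pow_one] at b1
  rw [iteratedDeriv_succ, iteratedDeriv_one] at b2
  have eR : ∀ m, ‖rem m (g s)‖ ≤ ρ ^ m * Real.exp R := fun m =>
    (rem_norm m (g s)).trans (mul_le_mul (pow_le_pow_left₀ (abs_nonneg _) b0 m)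
      (Real.exp_le_exp.2 (b0.trans hρR)) (Real.exp_pos _).le (by positivity))
  have hE : 0 < Real.exp R := Real.exp_pos R
  interval_cases i
  · rw [iteratedDeriv_zero, pow_zero, mul_one]
    refine (hc _).trans ((eR _).trans ?_)
    have h5 : 0 ≤ ρ ^ (K + 1) * Real.exp R := by positivity
    nlinarith
  · rw [iteratedDeriv_one, e1, pow_one]
    refine (hc _).trans ?_
    rw [norm_mul, norm_mul, Complex.norm_I, one_mul, Complex.norm_real, Real.norm_eq_abs]
    have h4 : ‖rem K (g s)‖ * |deriv g s| ≤ ρ ^ K * Real.exp R * (ρ * V) :=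
      mul_le_mul (eR K) b1 (abs_nonneg _) (by positivity)
    refine h4.trans ?_
    have h5 : 0 ≤ ρ ^ (K + 1) * Real.exp R * V := by positivity
    have e : ρ ^ K * Real.exp R * (ρ * V) = ρ ^ (K + 1) * Real.exp R * V := by ring
    rw [e]
    nlinarith
  · rw [iteratedDeriv_succ, iteratedDeriv_one, e1, (d2 s).deriv]
    refine (hc _).trans ((norm_add_le _ _).trans ?_)
    simp only [norm_mul, Complex.norm_I, one_mul, Complex.norm_real, Real.norm_eq_abs]
    have h4 : ‖rem K (g s)‖ * |deriv (deriv g) s| ≤ ρ ^ K * Real.exp R * (ρ * V ^ 2) :=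
      mul_le_mul (eR K) b2 (abs_nonneg _) (by positivity)
    have h6 : ‖rem (K - 1) (g s)‖ * |deriv g s| * |deriv g s| ≤ ρ ^ (K - 1) * Real.exp R * (ρ * V) * (ρ * V) :=
      mul_le_mul (mul_le_mul (eR _) b1 (abs_nonneg _) (by positivity)) b1 (abs_nonneg _) (by positivity)
    have h7 : ρ ^ (K - 1) * Real.exp R * (ρ * V) * (ρ * V) ≤ (1 + R) * (ρ ^ (K + 1) * Real.exp R * V ^ 2) := by
      rcases K with _ | K
      · simp only [zero_tsub, pow_zero, one_mul, zero_add, pow_one]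
        have : 0 ≤ ρ * Real.exp R * V ^ 2 := by positivity
        nlinarith
      · rw [Nat.add_sub_cancel]
        have : 0 ≤ ρ ^ (K + 1 + 1) * Real.exp R * V ^ 2 := by positivity
        have e : ρ ^ K * Real.exp R * (ρ * V) * (ρ * V) = ρ ^ (K + 1 + 1) * Real.exp R * V ^ 2 := by ring
        rw [e]
        nlinarith
    have e8 : ρ ^ K * Real.exp R * (ρ * V ^ 2) = ρ ^ (K + 1) * Real.exp R * V ^ 2 := by ring
    rw [e8] at h4
    calc _ ≤ (1 + R) * (ρ ^ (K + 1) * Real.exp R * V ^ 2) + ρ ^ (K + 1) * Real.exp R * V ^ 2 := by linarith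
      _ = _ := by ring

theorem tay (K : ℕ) (R : ℝ) : ∃ C : ℝ, 0 ≤ C ∧
    ∀ (V ρ : ℝ) (g : ℝ → ℝ), 1 ≤ V → 0 ≤ ρ → ρ ≤ R → Cls 2 V ρ g →
      Cls 2 V (C * ρ ^ (K + 1)) (fun s => (rem (K + 1) (g s)).re) ∧
      Cls 2 V (C * ρ ^ (K + 1)) (fun s => (rem (K + 1) (g s)).im) := by
  obtain ⟨C, hC, h⟩ := tayC Complex.reCLM Complex.abs_re_le_norm K R
  obtain ⟨C', hC', h'⟩ := tayC Complex.imCLM Complex.abs_im_le_norm K R
  refine ⟨max C C', hC.trans (le_max_left _ _), fun V ρ g hV hρ hR hg => ⟨?_, ?_⟩⟩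
  · have := h V ρ g hV hρ hR hg
    refine ⟨this.1, fun i hi s hs => (this.2 i hi s hs).trans ?_⟩
    gcongr
    exact le_max_left _ _
  · have := h' V ρ g hV hρ hR hg
    refine ⟨this.1, fun i hi s hs => (this.2 i hi s hs).trans ?_⟩
    gcongr
    exact le_max_right _ _

end Pool.Agent.J6H70.AD
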